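import Mathlib
set_option autoImplicit false
open scoped unitInterval ENNReal

namespace Pool.Agent.Results.MP_0279ce_an.SemisimpleFull

/-! ### `ℓ¹(ι)` -/

/-- `ℓ¹(ι)`. -/
noncomputable abbrev L (ι : Type) := lp (fun _ : ι => ℂ) 1

section l1
variable {ι κ : Type}

theorem l1_norm (a : L ι) : ‖a‖ = ∑' k, ‖a k‖ := by
  rw [lp.norm_eq_tsum_rpow (by simp)]
  simp

theorem l1_summable (a : L ι) : Summable fun k => ‖a k‖ := by
  have := lp.memℓp a
  rw [memℓp_gen_iff (by simp)] at this
  simpa using this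

theorem l1_mem {g : ι → ℂ} (h : Summable fun k => ‖g k‖) : Memℓp g 1 := by
  rw [memℓp_gen_iff (by simp)]
  simpa using h

/-- coordinates -/
def co (j : ι) : L ι →ₗ[ℂ] ℂ where
  toFun := fun a => a j
  map_add' := fun _ _ => rfl
  map_smul' := fun _ _ => rfl

theorem co_ext {a b : L ι} (h : ∀ j, co j a = co j b) : a = b := by
  ext j
  exact h j

theorem norm_eq_tsum (a : L ι) : ‖a‖ = ∑' k, ‖co k a‖ := l1_norm a

theorem summable_co (a : L ι) : Summable fun k => ‖co k a‖ := l1_summable a

theorem norm_co_le (a : L ι) (j : ι) : ‖co j a‖ ≤ ‖a‖ := lp.norm_apply_le_norm (by simp) a j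

/-- construct an element from coordinates -/
def mk (g : ι → ℂ) (h : Summable fun k => ‖g k‖) : L ι := ⟨g, l1_mem h⟩

theorem co_mk (g : ι → ℂ) (h : Summable fun k => ‖g k‖) (j : ι) : co j (mk g h) = g j := rfl

open Classical in
/-- unit vectors -/
noncomputable def sg (k : ι) : L ι := lp.single 1 k 1

open Classical in
theorem co_sg (j k : ι) : co j (sg k) = if j = k then 1 else 0 := by
  change (Pi.single k (1 : ℂ) : ι → ℂ) j = _
  rw [Pi.single_apply]

theorem co_sg_self (j : ι) : co j (sg j) = 1 := by rw [co_sg, if_pos rfl]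

theorem co_sg_ne {j k : ι} (h : j ≠ k) : co j (sg k) = 0 := by rw [co_sg, if_neg h]

open Classical in
theorem norm_sg (k : ι) : ‖sg k‖ = 1 := by
  have := lp.norm_single (E := fun _ : ι => ℂ) (p := 1) (by simp) k (1 : ℂ)
  rw [norm_one] at this
  exact this

/-- the continuous coordinate functional -/
noncomputable def coL (j : ι) : L ι →L[ℂ] ℂ :=
  (co j).mkContinuous 1 (fun a => by rw [one_mul]; exact norm_co_le a j)

theorem coL_apply (j : ι) (a : L ι) : coL j a = co j a := rfl

variable {V : Type} [NormedAddCommGroup V] [NormedSpace ℂ V] [CompleteSpace V]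

theorem summable_synth (β : ι → V) (hβ : ∀ i, ‖β i‖ ≤ 1) (t : L ι) : Summable fun i => co i t • β i := by
  apply Summable.of_norm_bounded (summable_co t)
  intro i
  rw [norm_smul]
  exact mul_le_of_le_one_right (norm_nonneg _) (hβ i)

/-- the synthesis operator `t ↦ ∑ t i • β i` -/
noncomputable def synth (β : ι → V) (hβ : ∀ i, ‖β i‖ ≤ 1) : L ι →L[ℂ] V :=
  LinearMap.mkContinuous
    { toFun := fun t => ∑' i, co i t • β i
      map_add' := fun s t => by
        simp only [map_add, add_smul]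
        exact (summable_synth β hβ s).tsum_add (summable_synth β hβ t)
      map_smul' := fun c t => by
        simp only [map_smul, smul_eq_mul, mul_smul, RingHom.id_apply]
        exact (summable_synth β hβ t).tsum_const_smul c } 1
    (fun t => by
      rw [one_mul, norm_eq_tsum]
      apply tsum_of_norm_bounded (summable_co t).hasSum
      intro i
      rw [norm_smul]
      exact mul_le_of_le_one_right (norm_nonneg _) (hβ i))

theorem synth_apply (β : ι → V) (hβ : ∀ i, ‖β i‖ ≤ 1) (t : L ι) : synth β hβ t = ∑' i, co i t • β i := rfl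

theorem co_synth (β : ι → L κ) (hβ : ∀ i, ‖β i‖ ≤ 1) (t : L ι) (j : κ) :
    co j (synth β hβ t) = ∑' i, co i t * co j (β i) := by
  have h := (coL j).map_tsum (summable_synth β hβ t)
  rw [coL_apply] at h
  rw [synth_apply, h]
  apply tsum_congr
  intro i
  rw [coL_apply, map_smul, smul_eq_mul]

/-- outer product -/
noncomputable def outer : L ι →ₗ[ℂ] L ι →ₗ[ℂ] L (ι × ι) :=
  LinearMap.mk₂ ℂ (fun a b => mk (fun q => co q.1 a * co q.2 b) (by
      have := (summable_co a).mul_of_nonneg (summable_co b) (fun _ => norm_nonneg _) (fun _ => norm_nonneg _)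
      simpa [norm_mul] using this))
    (fun a b c => by apply co_ext; intro q; simp [co_mk, add_mul])
    (fun c a b => by apply co_ext; intro q; simp [co_mk, mul_assoc])
    (fun a b c => by apply co_ext; intro q; simp [co_mk, mul_add])
    (fun c a b => by apply co_ext; intro q; simp [co_mk, mul_left_comm])

theorem co_outer (a b : L ι) (q : ι × ι) : co q (outer a b) = co q.1 a * co q.2 b := rfl

theorem norm_outer (a b : L ι) : ‖outer a b‖ = ‖a‖ * ‖b‖ := by
  rw [norm_eq_tsum, norm_eq_tsum a, norm_eq_tsum b]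
  have h := (summable_co a).mul_of_nonneg (summable_co b) (fun _ => norm_nonneg _) (fun _ => norm_nonneg _)
  rw [(summable_co a).tsum_mul_tsum (summable_co b) h]
  apply tsum_congr
  intro q
  rw [co_outer, norm_mul]

theorem norm_synth_le (β : ι → V) (hβ : ∀ i, ‖β i‖ ≤ 1) (t : L ι) : ‖synth β hβ t‖ ≤ ‖t‖ := by
  rw [norm_eq_tsum]
  apply tsum_of_norm_bounded (summable_co t).hasSum
  intro i
  rw [norm_smul]
  exact mul_le_of_le_one_right (norm_nonneg _) (hβ i)

end l1

/-! ### The index set -/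

/-- The index set: a well-founded set with countable branching. -/
inductive J : Type
  | leaf : ℕ → J
  | node : (ℕ → ℂ) → (ℕ → J) → (ℕ → J) → J

/-- the vector attached to an index, before normalisation -/
noncomputable def raw : J → L (J × J)
  | J.leaf n => sg (J.leaf n, J.leaf n)
  | J.node c a b => ∑' m, c m • sg (a m, b m)

theorem raw_leaf (n : ℕ) : raw (J.leaf n) = sg (J.leaf n, J.leaf n) := rfl

theorem raw_node (c : ℕ → ℂ) (a b : ℕ → J) : raw (J.node c a b) = ∑' m, c m • sg (a m, b m) := rfl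

/-- `kid k j`: the index `k` is one of the indices used in the definition of `j` -/
def kid (k : J) : J → Prop
  | J.leaf _ => False
  | J.node _ a b => ∃ m, k = a m ∨ k = b m

/-- the vector attached to an index; its norm is at most one -/
noncomputable def val (j : J) : L (J × J) := (((max 1 ‖raw j‖)⁻¹ : ℝ) : ℂ) • raw j

theorem norm_val_le (j : J) : ‖val j‖ ≤ 1 := by
  unfold val
  have h : 0 < max 1 ‖raw j‖ := lt_max_of_lt_left one_pos
  rw [norm_smul, Complex.norm_real, Real.norm_of_nonneg (inv_nonneg.mpr h.le), inv_mul_le_iff₀ h, mul_one]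
  exact le_max_right _ _

theorem co_raw_ne {j : J} {q : J × J} (h : co q (raw j) ≠ 0) (hne : q.1 ≠ q.2) :
    kid q.1 j ∧ kid q.2 j := by
  cases j with
  | leaf n =>
    exfalso
    apply h
    rw [raw_leaf]
    apply co_sg_ne
    intro hq
    apply hne
    rw [hq]
  | node c a b =>
    rw [raw_node] at h
    by_cases hs : Summable fun m => c m • sg (a m, b m)
    · have h1 := (coL q).map_tsum hs
      rw [coL_apply] at h1
      rw [h1] at h
      have h2 : ∃ m, coL q (c m • sg (a m, b m)) ≠ 0 := by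
        by_contra hno
        push Not at hno
        apply h
        simp [hno]
      obtain ⟨m, hm⟩ := h2
      rw [coL_apply, map_smul, smul_eq_mul] at hm
      have h3 : q = (a m, b m) := by
        by_contra hc
        apply hm
        rw [co_sg_ne hc, mul_zero]
      rw [h3]
      exact ⟨⟨m, Or.inl rfl⟩, ⟨m, Or.inr rfl⟩⟩
    · rw [tsum_eq_zero_of_not_summable hs, map_zero] at h
      exact absurd rfl h

theorem co_val_ne {j : J} {q : J × J} (h : co q (val j) ≠ 0) (hne : q.1 ≠ q.2) :
    kid q.1 j ∧ kid q.2 j := by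
  apply co_raw_ne _ hne
  intro h0
  apply h
  unfold val
  rw [map_smul, h0, smul_zero]

/-- support of all coordinates of `val j` when the set is closed -/
theorem co_val_mem {S : Set J} (hS : ∀ j ∈ S, ∀ k, kid k j → k ∈ S) {j : J} (hj : j ∈ S) {q : J × J}
    (h : co q (val j) ≠ 0) : q.1 ∈ S ∧ q.2 ∈ S := by
  have h' : co q (raw j) ≠ 0 := by
    intro h0
    apply h
    unfold val
    rw [map_smul, h0, smul_zero]
  cases j with
  | leaf n =>
    rw [raw_leaf] at h'
    have h3 : q = (J.leaf n, J.leaf n) := by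
      by_contra hc
      exact h' (co_sg_ne hc)
    rw [h3]
    exact ⟨hj, hj⟩
  | node c a b =>
    rw [raw_node] at h'
    by_cases hs : Summable fun m => c m • sg (a m, b m)
    · have h1 := (coL q).map_tsum hs
      rw [coL_apply] at h1
      rw [h1] at h'
      have h2 : ∃ m, coL q (c m • sg (a m, b m)) ≠ 0 := by
        by_contra hno
        push Not at hno
        apply h'
        simp [hno]
      obtain ⟨m, hm⟩ := h2
      rw [coL_apply, map_smul, smul_eq_mul] at hm
      have h3 : q = (a m, b m) := by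
        by_contra hc
        apply hm
        rw [co_sg_ne hc, mul_zero]
      rw [h3]
      exact ⟨hS _ hj _ ⟨m, Or.inl rfl⟩, hS _ hj _ ⟨m, Or.inr rfl⟩⟩
    · rw [tsum_eq_zero_of_not_summable hs, map_zero] at h'
      exact absurd rfl h'

/-- every vector supported in `S × S` is, up to a nonzero scalar, attached to an index with all its
predecessors in `S` -/
theorem exists_index {S : Set J} {s0 : J} (hs0 : s0 ∈ S) (g : L (J × J))
    (hg : ∀ q, co q g ≠ 0 → q.1 ∈ S ∧ q.2 ∈ S) :
    ∃ j : J, (∀ k, kid k j → k ∈ S) ∧ ∃ t : ℂ, t ≠ 0 ∧ val j = t • g := by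
  classical
  let Q : Set (J × J) := Function.support fun q => ‖co q g‖
  have hQ : Q.Countable := (summable_co g).countable_support
  have hmemQ : ∀ q, q ∈ Q ↔ co q g ≠ 0 := by
    intro q
    simp [Q]
  have hQ' : Countable Q := hQ
  obtain ⟨enc, henc⟩ := exists_injective_nat Q

  let dec : ℕ → Option Q := fun m => if h : ∃ q, enc q = m then some h.choose else none
  have hdec : ∀ q, dec (enc q) = some q := by
    intro q
    have hex : ∃ q', enc q' = enc q := ⟨q, rfl⟩
    simp only [dec]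
    rw [dif_pos hex]
    congr 1
    exact henc hex.choose_spec
  have hdec' : ∀ m q, dec m = some q → enc q = m := by
    intro m q h
    simp only [dec] at h
    split_ifs at h with hex
    · have := hex.choose_spec
      have h2 := Option.some.inj h
      rw [← h2]
      exact this
  let c : ℕ → ℂ := fun m => match dec m with
    | some q => co q.1 g
    | none => 0
  let a : ℕ → J := fun m => match dec m with
    | some q => q.1.1
    | none => s0
  let b : ℕ → J := fun m => match dec m with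
    | some q => q.1.2
    | none => s0
  have hc0 : ∀ m, dec m = none → c m = 0 := by
    intro m h; simp only [c, h]
  have hcs : ∀ m q, dec m = some q → c m = co q.1 g ∧ a m = q.1.1 ∧ b m = q.1.2 := by
    intro m q h
    refine ⟨?_, ?_, ?_⟩ <;> simp only [c, a, b, h]
  have hab : ∀ m, a m ∈ S ∧ b m ∈ S := by
    intro m
    cases hm : dec m with
    | none => exact ⟨by simp only [a, hm]; exact hs0, by simp only [b, hm]; exact hs0⟩
    | some q =>
      obtain ⟨_, h2, h3⟩ := hcs m q hm
      rw [h2, h3]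
      exact hg _ ((hmemQ _).mp q.2)
  have hsum1 : Summable fun m => ‖c m‖ := by
    have h1 : Summable ((fun m => ‖c m‖) ∘ enc) := by
      have h2 : ((fun m => ‖c m‖) ∘ enc) = fun q : Q => ‖co q.1 g‖ := by
        ext q
        simp only [Function.comp]
        rw [(hcs _ _ (hdec q)).1]
      rw [h2]
      exact (summable_co g).subtype Q
    rw [henc.summable_iff] at h1
    · exact h1
    · intro m hm
      have : dec m = none := by
        cases hd : dec m with
        | none => rfl
        | some q => exact absurd ⟨q, hdec' m q hd⟩ hm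
      rw [hc0 m this, norm_zero]
  have hsum2 : Summable fun m => c m • (sg (a m, b m) : L (J × J)) := by
    apply Summable.of_norm_bounded hsum1
    intro m
    rw [norm_smul, norm_sg, mul_one]
  have hraw : raw (J.node c a b) = g := by
    apply co_ext
    intro q
    rw [raw_node]
    have h1 := (coL q).map_tsum hsum2
    rw [coL_apply] at h1
    rw [h1]
    simp only [coL_apply, map_smul, smul_eq_mul]
    by_cases hq : q ∈ Q
    · rw [tsum_eq_single (enc ⟨q, hq⟩)]
      · obtain ⟨h2, h3, h4⟩ := hcs _ _ (hdec ⟨q, hq⟩)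
        rw [h2, h3, h4]
        change co q g * co q (sg (q.1, q.2)) = co q g
        rw [Prod.mk.eta, co_sg_self, mul_one]
      · intro m hm
        cases hd : dec m with
        | none => rw [hc0 m hd, zero_mul]
        | some q' =>
          obtain ⟨h2, h3, h4⟩ := hcs _ _ hd
          rw [h3, h4, Prod.mk.eta, co_sg_ne, mul_zero]
          intro hqq
          apply hm
          rw [← hdec' m q' hd]
          congr 1
          exact Subtype.ext hqq.symm
    · have h5 : co q g = 0 := by
        by_contra hc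
        exact hq ((hmemQ q).mpr hc)
      rw [h5]
      have h6 : ∀ m, c m * co q (sg (a m, b m)) = 0 := by
        intro m
        cases hd : dec m with
        | none => rw [hc0 m hd, zero_mul]
        | some q' =>
          obtain ⟨h2, h3, h4⟩ := hcs _ _ hd
          rw [h3, h4, Prod.mk.eta, co_sg_ne, mul_zero]
          intro hqq
          exact hq (hqq ▸ q'.2)
      rw [tsum_congr h6, tsum_zero]
  refine ⟨J.node c a b, ?_, (((max 1 ‖raw (J.node c a b)‖)⁻¹ : ℝ) : ℂ), ?_, ?_⟩
  · rintro k ⟨m, hk | hk⟩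
    · rw [hk]; exact (hab m).1
    · rw [hk]; exact (hab m).2
  · have h : 0 < max 1 ‖raw (J.node c a b)‖ := lt_max_of_lt_left one_pos
    simp only [ne_eq, Complex.ofReal_eq_zero, inv_eq_zero]
    exact h.ne'
  · unfold val
    rw [hraw]
theorem norm_val_le' (j : J) : ‖val j‖ ≤ 1 := norm_val_le j

section more
variable {ι κ : Type}

/-- supported in `S` -/
def Supp (S : Set ι) (x : L ι) : Prop := ∀ j, j ∉ S → co j x = 0

theorem synth_sg {V : Type} [NormedAddCommGroup V] [NormedSpace ℂ V] [CompleteSpace V]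
    (β : ι → V) (hβ : ∀ i, ‖β i‖ ≤ 1) (i : ι) : synth β hβ (sg i) = β i := by
  rw [synth_apply, tsum_eq_single i]
  · rw [co_sg_self, one_smul]
  · intro k hk
    rw [co_sg_ne hk, zero_smul]

/-- pull back along an injection -/
noncomputable def pull (φ : κ → ι) (hφ : Function.Injective φ) : L ι →ₗ[ℂ] L κ where
  toFun := fun x => mk (fun k => co (φ k) x) ((summable_co x).comp_injective hφ)
  map_add' := fun x y => by apply co_ext; intro k; rw [map_add, co_mk, co_mk, co_mk, map_add]
  map_smul' := fun c x => by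
    apply co_ext; intro k; rw [RingHom.id_apply, map_smul, co_mk, co_mk, map_smul]

theorem co_pull (φ : κ → ι) (hφ : Function.Injective φ) (x : L ι) (k : κ) :
    co k (pull φ hφ x) = co (φ k) x := rfl

theorem norm_pull_le (φ : κ → ι) (hφ : Function.Injective φ) (x : L ι) : ‖pull φ hφ x‖ ≤ ‖x‖ := by
  rw [norm_eq_tsum, norm_eq_tsum x]
  exact tsum_comp_le_tsum_of_inj (summable_co x) (fun _ => norm_nonneg _) hφ

open Classical in
/-- restriction to the complement of `s` -/
noncomputable def res (s : Set ι) : L ι →ₗ[ℂ] L ι where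
  toFun := fun x => mk (fun k => if k ∈ s then 0 else co k x) (by
    apply Summable.of_nonneg_of_le (fun _ => norm_nonneg _) (fun k => ?_) (summable_co x)
    split_ifs
    · rw [norm_zero]; exact norm_nonneg _
    · exact le_rfl)
  map_add' := fun x y => by
    apply co_ext; intro k
    rw [map_add, co_mk, co_mk, co_mk, map_add]
    split_ifs <;> simp
  map_smul' := fun c x => by
    apply co_ext; intro k
    rw [RingHom.id_apply, map_smul, co_mk, co_mk, map_smul]
    split_ifs <;> simp

open Classical in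
theorem co_res (s : Set ι) (x : L ι) (k : ι) : co k (res s x) = if k ∈ s then 0 else co k x := rfl

theorem co_res_mem {s : Set ι} (x : L ι) {k : ι} (h : k ∈ s) : co k (res s x) = 0 := by
  rw [co_res, if_pos h]

theorem co_res_notMem {s : Set ι} (x : L ι) {k : ι} (h : k ∉ s) : co k (res s x) = co k x := by
  rw [co_res, if_neg h]

theorem norm_res_le (s : Set ι) (x : L ι) : ‖res s x‖ ≤ ‖x‖ := by
  rw [norm_eq_tsum, norm_eq_tsum x]
  apply Summable.tsum_le_tsum _ (summable_co _) (summable_co _)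
  intro k
  by_cases h : k ∈ s
  · rw [co_res_mem x h, norm_zero]; exact norm_nonneg _
  · rw [co_res_notMem x h]

theorem supp_iff_res (s : Set ι) (x : L ι) : Supp s x ↔ res s x = 0 := by
  constructor
  · intro h
    apply co_ext
    intro k
    rw [map_zero]
    by_cases hk : k ∈ s
    · exact co_res_mem x hk
    · rw [co_res_notMem x hk]; exact h k hk
  · intro h k hk
    rw [← co_res_notMem x hk, h, map_zero]

/-- The tail of an `ℓ¹` vector. -/
theorem exists_tail (x : L ι) {ε : ℝ} (hε : 0 < ε) :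
    ∃ F : Finset ι, ∀ s : Set ι, (∀ k ∈ F, co k x ≠ 0 → k ∈ s) → ‖res s x‖ < ε := by
  classical
  have h := (summable_co x).hasSum
  rw [← norm_eq_tsum] at h
  have h1 := (h.eventually (lt_mem_nhds (sub_lt_self _ hε))).exists
  obtain ⟨F, hF⟩ := h1
  refine ⟨F, fun s hs => ?_⟩
  have h2 : ‖res s x‖ + ∑ k ∈ F, ‖co k x‖ ≤ ‖x‖ := by
    have h3 : ∀ k, ‖co k (res s x)‖ + (if k ∈ F then ‖co k x‖ else 0) ≤ ‖co k x‖ := by
      intro k
      by_cases hk : k ∈ F
      · rw [if_pos hk]
        by_cases h0 : co k x = 0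
        · have : co k (res s x) = 0 := by
            by_cases hks : k ∈ s
            · exact co_res_mem x hks
            · rw [co_res_notMem x hks, h0]
          rw [this, h0]; simp
        · rw [co_res_mem x (hs k hk h0), norm_zero, zero_add]
      · rw [if_neg hk, add_zero]
        by_cases hks : k ∈ s
        · rw [co_res_mem x hks, norm_zero]; exact norm_nonneg _
        · rw [co_res_notMem x hks]
    have h4 : HasSum (fun k => if k ∈ F then ‖co k x‖ else 0) (∑ k ∈ F, ‖co k x‖) := by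
      have h6 : ∑ k ∈ F, (if k ∈ F then ‖co k x‖ else 0) = ∑ k ∈ F, ‖co k x‖ :=
        Finset.sum_congr rfl (fun k hk => if_pos hk)
      rw [← h6]
      exact hasSum_sum_of_ne_finset_zero (fun b hb => if_neg hb)
    have h7 := (summable_co (res s x)).hasSum.add h4
    rw [← norm_eq_tsum] at h7
    have h8 := (summable_co x).hasSum
    rw [← norm_eq_tsum] at h8
    exact hasSum_le h3 h7 h8
  linarith

end more

/-! ### The synthesis operator -/

open Classical in
/-- the basis of the target: off the diagonal unit vectors, on the diagonal the vectors `val` -/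
noncomputable def bf (q : J × J) : L (J × J) := if q.1 = q.2 then val q.1 else sg q

theorem bf_off {q : J × J} (h : q.1 ≠ q.2) : bf q = sg q := if_neg h

theorem bf_diag (j : J) : bf (j, j) = val j := if_pos rfl

theorem norm_bf_le (q : J × J) : ‖bf q‖ ≤ 1 := by
  by_cases h : q.1 = q.2
  · have : q = (q.1, q.1) := Prod.ext rfl h.symm
    rw [this, bf_diag]
    exact norm_val_le _
  · rw [bf_off h, norm_sg]

/-- the synthesis operator -/
noncomputable def Sy : L (J × J) →L[ℂ] L (J × J) := synth bf norm_bf_le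

/-- the synthesis operator of the diagonal -/
noncomputable def Vl : L J →L[ℂ] L (J × J) := synth val norm_val_le

theorem diag_inj : Function.Injective (fun l : J => (l, l)) := fun _ _ h => congrArg Prod.fst h

/-- the diagonal -/
noncomputable def dg : L (J × J) →ₗ[ℂ] L J := pull (fun l => (l, l)) diag_inj

theorem co_dg (T : L (J × J)) (l : J) : co l (dg T) = co (l, l) T := rfl

theorem row_inj (k : J) : Function.Injective (fun l : J => (l, k)) := fun _ _ h => congrArg Prod.fst h

theorem col_inj (k : J) : Function.Injective (fun l : J => (k, l)) := fun _ _ h => congrArg Prod.snd h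

noncomputable def row (k : J) : L (J × J) →ₗ[ℂ] L J := pull (fun l => (l, k)) (row_inj k)

noncomputable def col (k : J) : L (J × J) →ₗ[ℂ] L J := pull (fun l => (k, l)) (col_inj k)

theorem co_row (k l : J) (T : L (J × J)) : co l (row k T) = co (l, k) T := rfl

theorem co_col (k l : J) (T : L (J × J)) : co l (col k T) = co (k, l) T := rfl

theorem co_Sy_off (T : L (J × J)) {q : J × J} (hq : q.1 ≠ q.2) :
    co q (Sy T) = co q T + co q (Vl (dg T)) := by
  classical
  have h1 : co q (Sy T) = ∑' i, co i T * co q (bf i) := co_synth bf norm_bf_le T q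
  have h2 : co q (Vl (dg T)) = ∑' l, co (l, l) T * co q (val l) := co_synth val norm_val_le (dg T) q
  have h3 : ∑' l, co (l, l) T * co q (val l) =
      ∑' i : J × J, (if i.1 = i.2 then co i T * co q (bf i) else 0) := by
    rw [← Function.Injective.tsum_eq diag_inj (f := fun i : J × J =>
      (if i.1 = i.2 then co i T * co q (bf i) else 0))]
    · apply tsum_congr
      intro l
      rw [if_pos rfl, bf_diag]
    · intro i hi
      rw [Function.mem_support] at hi
      by_cases h : i.1 = i.2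
      · exact ⟨i.1, Prod.ext rfl h⟩
      · exact absurd (if_neg h) hi
  have h4 : co q T = ∑' i : J × J, (if i = q then co q T else 0) := by
    rw [tsum_ite_eq]
  have hs1 : Summable fun i : J × J => (if i = q then co q T else 0) :=
    (hasSum_ite_eq q (co q T)).summable
  have hs0 : Summable fun i : J × J => co i T * co q (bf i) := by
    have := (summable_synth bf norm_bf_le T).map (coL q) (coL q).continuous
    refine this.congr ?_
    intro i
    rw [Function.comp_apply, coL_apply, map_smul, smul_eq_mul]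
  have hs2 : Summable fun i : J × J => (if i.1 = i.2 then co i T * co q (bf i) else 0) := by
    have h5 : (fun i : J × J => (if i.1 = i.2 then co i T * co q (bf i) else 0)) =
        Set.indicator {i : J × J | i.1 = i.2} (fun i => co i T * co q (bf i)) := by
      ext i
      rw [Set.indicator_apply]
      rfl
    rw [h5]
    exact hs0.indicator _
  rw [h1, h2, h3]
  conv_rhs => rw [h4]
  rw [← hs1.tsum_add hs2]
  apply tsum_congr
  intro i
  by_cases h : i.1 = i.2
  · have hiq : i ≠ q := by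
      rintro rfl
      exact hq h
    rw [if_pos h, if_neg hiq, zero_add]
  · rw [if_neg h, add_zero, bf_off h, co_sg]
    by_cases hiq : i = q
    · rw [hiq, if_pos rfl, if_pos rfl, mul_one]
    · rw [if_neg hiq, if_neg (Ne.symm hiq), mul_zero]

/-- closed sets of indices -/
def Closed (S : Set J) : Prop := ∀ j ∈ S, ∀ k, kid k j → k ∈ S

theorem supp_val {S : Set J} (hS : Closed S) {j : J} (hj : j ∈ S) : Supp (S ×ˢ S) (val j) := by
  intro q hq
  by_contra h
  exact hq (co_val_mem hS hj h)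

theorem supp_Vl {S : Set J} (hS : Closed S) {t : L J} (ht : Supp S t) : Supp (S ×ˢ S) (Vl t) := by
  intro q hq
  have h1 : co q (Vl t) = ∑' l, co l t * co q (val l) := co_synth val norm_val_le t q
  have h2 : ∀ l, co l t * co q (val l) = 0 := by
    intro l
    by_cases hl : l ∈ S
    · rw [supp_val hS hl q hq, mul_zero]
    · rw [ht l hl, zero_mul]
  rw [h1, tsum_congr h2, tsum_zero]

theorem supp_Sy {S : Set J} (hS : Closed S) {T : L (J × J)} (hT : Supp (S ×ˢ S) T) :
    Supp (S ×ˢ S) (Sy T) := by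
  intro q hq
  have h1 : co q (Sy T) = ∑' i, co i T * co q (bf i) := co_synth bf norm_bf_le T q
  have h2 : ∀ i, co i T * co q (bf i) = 0 := by
    intro i
    by_cases hi : i ∈ S ×ˢ S
    · by_cases h : i.1 = i.2
      · have : i = (i.1, i.1) := Prod.ext rfl h.symm
        rw [this, bf_diag, supp_val hS hi.1 q hq, mul_zero]
      · rw [bf_off h, co_sg_ne, mul_zero]
        rintro rfl
        exact hq hi
    · rw [hT i hi, zero_mul]
  rw [h1, tsum_congr h2, tsum_zero]

/-- the key off-diagonal formula -/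
theorem key_off {S : Set J} (hS : Closed S) (T : L (J × J)) {q : J × J} (hne : q.1 ≠ q.2)
    (hq : q ∉ S ×ˢ S) (h0 : co q (Sy T) = 0) : co q T = - co q (Vl (res S (dg T))) := by
  have h1 := co_Sy_off T hne
  rw [h0] at h1
  have h2 : dg T = res S (dg T) + (dg T - res S (dg T)) := by abel
  have h3 : Supp S (dg T - res S (dg T)) := by
    intro k hk
    rw [map_sub, co_res_notMem _ hk, sub_self]
  have h4 : co q (Vl (dg T)) = co q (Vl (res S (dg T))) := by
    conv_lhs => rw [h2]
    rw [map_add, map_add, supp_Vl hS h3 q hq, add_zero]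
  rw [h4] at h1
  exact eq_neg_of_add_eq_zero_left h1.symm

/-! ### Tensors -/

section tensor
variable {ι : Type}

/-- the algebraic tensor product of the vectors supported in `U`, inside `ℓ¹(ι × ι)` -/
noncomputable def TS (U : Set ι) : Submodule ℂ (L (ι × ι)) :=
  Submodule.span ℂ {T | ∃ x y : L ι, Supp U x ∧ Supp U y ∧ T = outer x y}

theorem outer_mem_TS {U : Set ι} {x y : L ι} (hx : Supp U x) (hy : Supp U y) : outer x y ∈ TS U :=
  Submodule.subset_span ⟨x, y, hx, hy, rfl⟩

theorem supp_outer {U : Set ι} {x y : L ι} (hx : Supp U x) (hy : Supp U y) :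
    Supp (U ×ˢ U) (outer x y) := by
  intro q hq
  rw [co_outer]
  by_cases h1 : q.1 ∈ U
  · have h2 : q.2 ∉ U := fun h => hq ⟨h1, h⟩
    rw [hy _ h2, mul_zero]
  · rw [hx _ h1, zero_mul]

theorem Supp.add {U : Set ι} {x y : L ι} (hx : Supp U x) (hy : Supp U y) : Supp U (x + y) := by
  intro k hk
  rw [map_add, hx k hk, hy k hk, add_zero]

theorem Supp.smul {U : Set ι} {x : L ι} (c : ℂ) (hx : Supp U x) : Supp U (c • x) := by
  intro k hk
  rw [map_smul, hx k hk, smul_zero]

theorem Supp.sub {U : Set ι} {x y : L ι} (hx : Supp U x) (hy : Supp U y) : Supp U (x - y) := by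
  intro k hk
  rw [map_sub, hx k hk, hy k hk, sub_zero]

theorem Supp.zero {U : Set ι} : Supp U (0 : L ι) := by
  intro k hk
  rw [map_zero]

theorem supp_TS {U : Set ι} {T : L (ι × ι)} (hT : T ∈ TS U) : Supp (U ×ˢ U) T := by
  unfold TS at hT
  induction hT using Submodule.span_induction with
  | mem y hy =>
    obtain ⟨a, b, ha, hb, rfl⟩ := hy
    exact supp_outer ha hb
  | zero => exact Supp.zero
  | add y z _ _ hy hz => exact hy.add hz
  | smul r y _ hy => exact hy.smul r

/-- A presentation as a finite sum. -/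
def Pres (U : Set ι) (T : L (ι × ι)) (s : Finset (L (ι × ι))) (x y : L (ι × ι) → L ι) : Prop :=
  (∀ a, Supp U (x a)) ∧ (∀ a, Supp U (y a)) ∧ T = ∑ a ∈ s, outer (x a) (y a)

theorem exists_pres {U : Set ι} {T : L (ι × ι)} (hT : T ∈ TS U) : ∃ s x y, Pres U T s x y := by
  classical
  unfold TS at hT
  rw [Submodule.mem_span_iff_exists_finset_subset] at hT
  obtain ⟨f, t, ht, hf, hsum⟩ := hT
  have hch : ∀ a : L (ι × ι), ∃ x y : L ι, Supp U x ∧ Supp U y ∧ (a ∈ t → a = outer x y) := by
    intro a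
    by_cases ha : a ∈ t
    · obtain ⟨x, y, hx, hy, hxy⟩ := ht ha
      exact ⟨x, y, hx, hy, fun _ => hxy⟩
    · exact ⟨0, 0, Supp.zero, Supp.zero, fun h => absurd h ha⟩
  choose x y hx hy hxy using hch
  refine ⟨t, fun a => f a • x a, y, fun a => (hx a).smul _, hy, ?_⟩
  rw [← hsum]
  apply Finset.sum_congr rfl
  intro a ha
  rw [map_smul, LinearMap.smul_apply]
  congr 1
  exact hxy a ha

/-- A reduced presentation. -/
theorem exists_reduced {U : Set ι} {T : L (ι × ι)} (hT : T ∈ TS U) :
    ∃ s x y, Pres U T s x y ∧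
      (∀ c : L (ι × ι) → ℂ, ∑ a ∈ s, c a • x a = 0 → ∀ a ∈ s, c a = 0) ∧
      (∀ c : L (ι × ι) → ℂ, ∑ a ∈ s, c a • y a = 0 → ∀ a ∈ s, c a = 0) := by
  classical
  have hex : ∃ n, ∃ s x y, Pres U T s x y ∧ s.card = n := by
    obtain ⟨s, x, y, h⟩ := exists_pres hT
    exact ⟨_, s, x, y, h, rfl⟩
  obtain ⟨s, x, y, ⟨hx, hy, hT'⟩, hcard⟩ := Nat.find_spec hex
  have hmin : ∀ s' x' y', Pres U T s' x' y' → ¬ s'.card < s.card := by
    intro s' x' y' h hlt
    rw [hcard] at hlt
    exact Nat.find_min hex hlt ⟨s', x', y', h, rfl⟩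
  refine ⟨s, x, y, ⟨hx, hy, hT'⟩, ?_, ?_⟩
  · intro c hc a0 ha0
    by_contra hne
    apply hmin (s.erase a0) x (fun a => y a - (c a / c a0) • y a0) ?_ (Finset.card_erase_lt_of_mem ha0)
    refine ⟨hx, fun a => (hy a).sub ((hy a0).smul _), ?_⟩
    have h1 : ∑ a ∈ s.erase a0, c a • x a = - (c a0 • x a0) := by
      rw [← Finset.add_sum_erase s _ ha0] at hc
      exact eq_neg_of_add_eq_zero_right hc
    have h2 : ∑ a ∈ s.erase a0, (c a / c a0) • x a = - x a0 := by
      have h3 : ∑ a ∈ s.erase a0, (c a / c a0) • x a = (c a0)⁻¹ • ∑ a ∈ s.erase a0, c a • x a := by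
        rw [Finset.smul_sum]
        apply Finset.sum_congr rfl
        intro a _
        rw [smul_smul, div_eq_inv_mul]
      rw [h3, h1, smul_neg, smul_smul, inv_mul_cancel₀ hne, one_smul]
    have h4 : ∑ a ∈ s.erase a0, outer (x a) (y a - (c a / c a0) • y a0) =
        ∑ a ∈ s.erase a0, outer (x a) (y a) - outer (∑ a ∈ s.erase a0, (c a / c a0) • x a) (y a0) := by
      rw [map_sum, LinearMap.sum_apply, ← Finset.sum_sub_distrib]
      apply Finset.sum_congr rfl
      intro a _
      rw [map_sub, map_smul, map_smul, LinearMap.smul_apply]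
    rw [h4, h2, hT', ← Finset.add_sum_erase s _ ha0, map_neg, LinearMap.neg_apply, sub_neg_eq_add, add_comm]
  · intro c hc a0 ha0
    by_contra hne
    apply hmin (s.erase a0) (fun a => x a - (c a / c a0) • x a0) y ?_ (Finset.card_erase_lt_of_mem ha0)
    refine ⟨fun a => (hx a).sub ((hx a0).smul _), hy, ?_⟩
    have h1 : ∑ a ∈ s.erase a0, c a • y a = - (c a0 • y a0) := by
      rw [← Finset.add_sum_erase s _ ha0] at hc
      exact eq_neg_of_add_eq_zero_right hc
    have h2 : ∑ a ∈ s.erase a0, (c a / c a0) • y a = - y a0 := by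
      have h3 : ∑ a ∈ s.erase a0, (c a / c a0) • y a = (c a0)⁻¹ • ∑ a ∈ s.erase a0, c a • y a := by
        rw [Finset.smul_sum]
        apply Finset.sum_congr rfl
        intro a _
        rw [smul_smul, div_eq_inv_mul]
      rw [h3, h1, smul_neg, smul_smul, inv_mul_cancel₀ hne, one_smul]
    have h4 : ∑ a ∈ s.erase a0, outer (x a - (c a / c a0) • x a0) (y a) =
        ∑ a ∈ s.erase a0, outer (x a) (y a) - outer (x a0) (∑ a ∈ s.erase a0, (c a / c a0) • y a) := by
      rw [map_sum, ← Finset.sum_sub_distrib]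
      apply Finset.sum_congr rfl
      intro a _
      rw [map_sub, LinearMap.sub_apply, map_smul, LinearMap.smul_apply, map_smul]
    rw [h4, h2, hT', ← Finset.add_sum_erase s _ ha0, map_neg, sub_neg_eq_add, add_comm]

/-- Biorthogonal finitely supported functionals. -/
theorem exists_dual {α : Type} (s : Finset α) (y : α → L ι)
    (hy : ∀ c : α → ℂ, ∑ a ∈ s, c a • y a = 0 → ∀ a ∈ s, c a = 0) (a : α) :
    ∃ d : ι →₀ ℂ, ∀ b ∈ s, (d.sum fun k t => t * co k (y b)) = (open Classical in if a = b then 1 else 0) := by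
  classical
  let Φ : (ι →₀ ℂ) →ₗ[ℂ] (s → ℂ) := LinearMap.pi (fun b : s =>
    Finsupp.linearCombination ℂ (fun k => co k (y b)))
  have hΦ : ∀ d (b : s), Φ d b = d.sum fun k t => t * co k (y b) := by
    intro d b
    change Finsupp.linearCombination ℂ (fun k => co k (y b)) d = _
    rw [Finsupp.linearCombination_apply]
    rfl
  have hsurj : LinearMap.range Φ = ⊤ := by
    by_contra hne
    obtain ⟨f, hf0, hf⟩ := Submodule.exists_le_ker_of_lt_top _ (lt_top_iff_ne_top.mpr hne)
    apply hf0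
    let c : α → ℂ := fun b => if hb : b ∈ s then f (fun j => if (⟨b, hb⟩ : s) = j then 1 else 0) else 0
    have hcs : ∀ b : s, c b = f (fun j => if b = j then 1 else 0) := by
      intro b
      simp only [c]
      rw [dif_pos b.2]
    have h1 : ∑ b ∈ s, c b • y b = 0 := by
      rw [← Finset.sum_coe_sort s (fun b => c b • y b)]
      apply co_ext
      intro k
      rw [map_sum, map_zero]
      have h2 : f (Φ (Finsupp.single k 1)) = 0 := hf ⟨_, rfl⟩
      rw [LinearMap.pi_apply_eq_sum_univ f] at h2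
      rw [← h2]
      apply Finset.sum_congr rfl
      intro b _
      rw [map_smul, hcs b, hΦ, Finsupp.sum_single_index (by rw [zero_mul]), one_mul, smul_eq_mul, smul_eq_mul,
        mul_comm]
    have h3 := hy c h1
    apply LinearMap.ext
    intro v
    rw [LinearMap.pi_apply_eq_sum_univ f, LinearMap.zero_apply]
    apply Finset.sum_eq_zero
    intro b _
    rw [← hcs b, h3 b b.2, smul_zero]
  have hmem : (fun b : s => if a = b then (1 : ℂ) else 0) ∈ LinearMap.range Φ := by
    rw [hsurj]; trivial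
  obtain ⟨d, hd⟩ := hmem
  refine ⟨d, fun b hb => ?_⟩
  have := congrFun hd ⟨b, hb⟩
  rw [hΦ] at this
  exact this

end tensor

section chain
variable {α : Type}

theorem row_formula {s : Finset α} {x y : α → L J} {T : L (J × J)} (hT : T = ∑ a ∈ s, outer (x a) (y a))
    {a : α} (ha : a ∈ s) {d : J →₀ ℂ}
    (hd : ∀ b ∈ s, (d.sum fun k t => t * co k (y b)) = (open Classical in if a = b then 1 else 0)) :
    x a = ∑ k ∈ d.support, d k • row k T := by
  classical
  apply co_ext
  intro l
  have h1 : ∀ k, co l (row k T) = ∑ b ∈ s, co l (x b) * co k (y b) := by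
    intro k
    rw [co_row, hT, map_sum]
    rfl
  rw [map_sum]
  have h2 : ∀ k ∈ d.support, co l (d k • row k T) = ∑ b ∈ s, co l (x b) * (d k * co k (y b)) := by
    intro k _
    rw [map_smul, h1, smul_eq_mul, Finset.mul_sum]
    apply Finset.sum_congr rfl
    intro b _
    ring
  rw [Finset.sum_congr rfl h2, Finset.sum_comm]
  have h3 : ∀ b ∈ s, ∑ k ∈ d.support, co l (x b) * (d k * co k (y b)) =
      if a = b then co l (x b) else 0 := by
    intro b hb
    have h4 := hd b hb
    rw [Finsupp.sum] at h4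
    rw [← Finset.mul_sum, h4]
    split_ifs <;> simp
  rw [Finset.sum_congr rfl h3, Finset.sum_ite_eq, if_pos ha]

theorem col_formula {s : Finset α} {x y : α → L J} {T : L (J × J)} (hT : T = ∑ a ∈ s, outer (x a) (y a))
    {a : α} (ha : a ∈ s) {d : J →₀ ℂ}
    (hd : ∀ b ∈ s, (d.sum fun k t => t * co k (x b)) = (open Classical in if a = b then 1 else 0)) :
    y a = ∑ k ∈ d.support, d k • col k T := by
  classical
  apply co_ext
  intro l
  have h1 : ∀ k, co l (col k T) = ∑ b ∈ s, co k (x b) * co l (y b) := by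
    intro k
    rw [co_col, hT, map_sum]
    rfl
  rw [map_sum]
  have h2 : ∀ k ∈ d.support, co l (d k • col k T) = ∑ b ∈ s, co l (y b) * (d k * co k (x b)) := by
    intro k _
    rw [map_smul, h1, smul_eq_mul, Finset.mul_sum]
    apply Finset.sum_congr rfl
    intro b _
    ring
  rw [Finset.sum_congr rfl h2, Finset.sum_comm]
  have h3 : ∀ b ∈ s, ∑ k ∈ d.support, co l (y b) * (d k * co k (x b)) =
      if a = b then co l (y b) else 0 := by
    intro b hb
    have h4 := hd b hb
    rw [Finsupp.sum] at h4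
    rw [← Finset.mul_sum, h4]
    split_ifs <;> simp
  rw [Finset.sum_congr rfl h3, Finset.sum_ite_eq, if_pos ha]

theorem exists_chain_mem {c : Set (Set J)} (hchain : IsChain (· ⊆ ·) c) (hne : c.Nonempty) (F : Finset J) :
    ∃ S ∈ c, ∀ k ∈ F, k ∈ ⋃₀ c → k ∈ S := by
  classical
  induction F using Finset.induction_on with
  | empty =>
    obtain ⟨S, hS⟩ := hne
    exact ⟨S, hS, fun k hk => absurd hk (Finset.notMem_empty k)⟩
  | insert i F _ ih =>
    obtain ⟨S, hS, hF⟩ := ih
    by_cases hi : i ∈ ⋃₀ c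
    · obtain ⟨S', hS', hiS'⟩ := hi
      rcases hchain.total hS hS' with h | h
      · refine ⟨S', hS', fun k hk hk' => ?_⟩
        rcases Finset.mem_insert.mp hk with rfl | hk
        · exact hiS'
        · exact h (hF k hk hk')
      · refine ⟨S, hS, fun k hk hk' => ?_⟩
        rcases Finset.mem_insert.mp hk with rfl | hk
        · exact h hiS'
        · exact hF k hk hk'
    · refine ⟨S, hS, fun k hk hk' => ?_⟩
      rcases Finset.mem_insert.mp hk with rfl | hk
      · exact absurd hk' hi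
      · exact hF k hk hk'

theorem norm_Vl_le (t : L J) : ‖Vl t‖ ≤ ‖t‖ := norm_synth_le val norm_val_le t

theorem res_row_le {S : Set J} (hS : Closed S) {T : L (J × J)}
    (h0 : ∀ q : J × J, q.1 ≠ q.2 → co q (Sy T) = 0) {k : J} (hk : k ∈ S) :
    ‖res S (row k T)‖ ≤ ‖res S (dg T)‖ := by
  have h1 : res S (row k T) = - res S (row k (Vl (res S (dg T)))) := by
    apply co_ext
    intro l
    rw [map_neg]
    by_cases hl : l ∈ S
    · rw [co_res_mem _ hl, co_res_mem _ hl, neg_zero]
    · rw [co_res_notMem _ hl, co_res_notMem _ hl, co_row, co_row]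
      have hne : l ≠ k := fun h => hl (h ▸ hk)
      exact key_off hS T (q := (l, k)) hne (fun h => hl h.1) (h0 _ hne)
  rw [h1, norm_neg]
  exact (norm_res_le _ _).trans ((norm_pull_le _ _ _).trans (norm_Vl_le _))

theorem res_col_le {S : Set J} (hS : Closed S) {T : L (J × J)}
    (h0 : ∀ q : J × J, q.1 ≠ q.2 → co q (Sy T) = 0) {k : J} (hk : k ∈ S) :
    ‖res S (col k T)‖ ≤ ‖res S (dg T)‖ := by
  have h1 : res S (col k T) = - res S (col k (Vl (res S (dg T)))) := by
    apply co_ext
    intro l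
    rw [map_neg]
    by_cases hl : l ∈ S
    · rw [co_res_mem _ hl, co_res_mem _ hl, neg_zero]
    · rw [co_res_notMem _ hl, co_res_notMem _ hl, co_col, co_col]
      have hne : k ≠ l := fun h => hl (h ▸ hk)
      exact key_off hS T (q := (k, l)) hne (fun h => hl h.2) (h0 _ hne)
  rw [h1, norm_neg]
  exact (norm_res_le _ _).trans ((norm_pull_le _ _ _).trans (norm_Vl_le _))

theorem res_dg_outer (S : Set J) (x y : L J) : res S (dg (outer x y)) = dg (outer (res S x) (res S y)) := by
  apply co_ext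
  intro l
  rw [co_dg, co_outer]
  by_cases hl : l ∈ S
  · rw [co_res_mem _ hl, co_res_mem _ hl, zero_mul]
  · rw [co_res_notMem _ hl, co_res_notMem _ hl, co_res_notMem _ hl, co_dg, co_outer]

/-- The chain step. -/
theorem exists_mem_chain {c : Set (Set J)} (hc : ∀ S ∈ c, Closed S) (hchain : IsChain (· ⊆ ·) c)
    (hne : c.Nonempty) {T : L (J × J)} (hT : T ∈ TS (⋃₀ c))
    (h0 : ∀ q : J × J, q.1 ≠ q.2 → co q (Sy T) = 0) : ∃ S ∈ c, T ∈ TS S := by
  classical
  have hsup := supp_TS hT
  obtain ⟨s, x, y, ⟨hx, hy, hT'⟩, hix, hiy⟩ := exists_reduced hT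
  choose dx hdx using exists_dual s y hiy
  choose dy hdy using exists_dual s x hix
  obtain ⟨N, hN⟩ : ∃ N : L (J × J) → ℝ, ∀ a, N a = ∑ k ∈ (dx a).support, ‖dx a k‖ := ⟨_, fun _ => rfl⟩
  obtain ⟨M, hM⟩ : ∃ M : L (J × J) → ℝ, ∀ a, M a = ∑ k ∈ (dy a).support, ‖dy a k‖ := ⟨_, fun _ => rfl⟩
  have hN0 : ∀ a, 0 ≤ N a := fun a => by rw [hN]; exact Finset.sum_nonneg (fun _ _ => norm_nonneg _)
  have hM0 : ∀ a, 0 ≤ M a := fun a => by rw [hM]; exact Finset.sum_nonneg (fun _ _ => norm_nonneg _)
  obtain ⟨K, hK⟩ : ∃ K : ℝ, K = ∑ a ∈ s, N a * M a := ⟨_, rfl⟩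
  have hK0 : 0 ≤ K := by rw [hK]; exact Finset.sum_nonneg (fun a _ => mul_nonneg (hN0 a) (hM0 a))
  have hε : 0 < 1 / (K + 1) := by positivity
  obtain ⟨F2, hF2⟩ := exists_tail (dg T) hε
  obtain ⟨S, hSc, hS⟩ := exists_chain_mem hchain hne
    ((s.biUnion fun a => (dx a).support ∪ (dy a).support) ∪ F2)
  refine ⟨S, hSc, ?_⟩
  have hcl := hc S hSc
  obtain ⟨τ, hτ⟩ : ∃ τ : ℝ, τ = ‖res S (dg T)‖ := ⟨_, rfl⟩
  have hτ0 : 0 ≤ τ := by rw [hτ]; exact norm_nonneg _
  have hτ1 : τ < 1 / (K + 1) := by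
    rw [hτ]
    apply hF2
    intro k hk hk0
    apply hS k (Finset.mem_union_right _ hk)
    by_contra hkU
    apply hk0
    rw [co_dg]
    exact hsup _ (fun h => hkU h.1)
  have hrow : ∀ a ∈ s, ∀ k ∈ (dx a).support, ‖res S (row k T)‖ ≤ τ := by
    intro a ha k hk
    by_cases hkU : k ∈ ⋃₀ c
    · rw [hτ]
      apply res_row_le hcl h0
      apply hS k _ hkU
      apply Finset.mem_union_left
      rw [Finset.mem_biUnion]
      exact ⟨a, ha, Finset.mem_union_left _ hk⟩
    · have h1 : row k T = 0 := by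
        apply co_ext
        intro l
        rw [co_row, map_zero]
        exact hsup _ (fun h => hkU h.2)
      rw [h1, map_zero, norm_zero]
      exact hτ0
  have hcol : ∀ a ∈ s, ∀ k ∈ (dy a).support, ‖res S (col k T)‖ ≤ τ := by
    intro a ha k hk
    by_cases hkU : k ∈ ⋃₀ c
    · rw [hτ]
      apply res_col_le hcl h0
      apply hS k _ hkU
      apply Finset.mem_union_left
      rw [Finset.mem_biUnion]
      exact ⟨a, ha, Finset.mem_union_right _ hk⟩
    · have h1 : col k T = 0 := by
        apply co_ext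
        intro l
        rw [co_col, map_zero]
        exact hsup _ (fun h => hkU h.1)
      rw [h1, map_zero, norm_zero]
      exact hτ0
  have hxa : ∀ a ∈ s, ‖res S (x a)‖ ≤ N a * τ := by
    intro a ha
    rw [row_formula hT' ha (hdx a), map_sum, hN, Finset.sum_mul]
    apply (norm_sum_le _ _).trans
    apply Finset.sum_le_sum
    intro k hk
    rw [map_smul, norm_smul]
    exact mul_le_mul_of_nonneg_left (hrow a ha k hk) (norm_nonneg _)
  have hya : ∀ a ∈ s, ‖res S (y a)‖ ≤ M a * τ := by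
    intro a ha
    rw [col_formula hT' ha (hdy a), map_sum, hM, Finset.sum_mul]
    apply (norm_sum_le _ _).trans
    apply Finset.sum_le_sum
    intro k hk
    rw [map_smul, norm_smul]
    exact mul_le_mul_of_nonneg_left (hcol a ha k hk) (norm_nonneg _)
  have hquad : τ ≤ K * τ ^ 2 := by
    calc τ = ‖res S (dg T)‖ := hτ
      _ = ‖∑ a ∈ s, dg (outer (res S (x a)) (res S (y a)))‖ := by
          rw [hT', map_sum, map_sum]
          congr 1
          apply Finset.sum_congr rfl
          intro a _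
          exact res_dg_outer S (x a) (y a)
      _ ≤ ∑ a ∈ s, ‖dg (outer (res S (x a)) (res S (y a)))‖ := norm_sum_le _ _
      _ ≤ ∑ a ∈ s, (N a * τ) * (M a * τ) := by
          apply Finset.sum_le_sum
          intro a ha
          refine (norm_pull_le _ _ _).trans ?_
          rw [norm_outer]
          exact mul_le_mul (hxa a ha) (hya a ha) (norm_nonneg _) (mul_nonneg (hN0 a) hτ0)
      _ = K * τ ^ 2 := by
          rw [hK, Finset.sum_mul]
          apply Finset.sum_congr rfl
          intro a _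
          ring
  have hτz : τ = 0 := by
    by_contra hne'
    have hpos : 0 < τ := lt_of_le_of_ne hτ0 (Ne.symm hne')
    rw [lt_div_iff₀ (by positivity)] at hτ1
    nlinarith
  rw [hT']
  apply Submodule.sum_mem
  intro a ha
  apply outer_mem_TS
  · rw [supp_iff_res]
    have := hxa a ha
    rw [hτz, mul_zero] at this
    exact norm_le_zero_iff.mp this
  · rw [supp_iff_res]
    have := hya a ha
    rw [hτz, mul_zero] at this
    exact norm_le_zero_iff.mp this

end chain

/-! ### The vector `rvec` and the maximal set -/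

theorem summable_half : Summable fun n : ℕ => ‖(((1 / 2 : ℝ) ^ n : ℝ) : ℂ)‖ := by
  refine summable_geometric_two.congr ?_
  intro n
  rw [Complex.norm_real, Real.norm_of_nonneg (by positivity)]

noncomputable def wv : L ℕ := mk (fun n => (((1 / 2 : ℝ) ^ n : ℝ) : ℂ)) summable_half

theorem co_wv (n : ℕ) : co n wv = (((1 / 2 : ℝ) ^ n : ℝ) : ℂ) := rfl

noncomputable def lf (n : ℕ) : L (J × J) := sg (J.leaf n, J.leaf n)

theorem norm_lf_le (n : ℕ) : ‖lf n‖ ≤ 1 := by
  unfold lf
  rw [norm_sg]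

/-- synthesis along the leaves -/
noncomputable def SL : L ℕ →L[ℂ] L (J × J) := synth lf norm_lf_le

theorem co_SL_leaf (w : L ℕ) (n : ℕ) : co (J.leaf n, J.leaf n) (SL w) = co n w := by
  have h1 : co (J.leaf n, J.leaf n) (SL w) = ∑' i, co i w * co (J.leaf n, J.leaf n) (lf i) :=
    co_synth lf norm_lf_le w _
  rw [h1, tsum_eq_single n]
  · unfold lf
    rw [co_sg_self, mul_one]
  · intro m hm
    unfold lf
    rw [co_sg_ne, mul_zero]
    intro h
    apply hm
    have := congrArg Prod.fst h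
    exact (J.leaf.inj this).symm

theorem co_SL_ne (w : L ℕ) {q : J × J} (h : ∀ n, q ≠ (J.leaf n, J.leaf n)) : co q (SL w) = 0 := by
  have h1 : co q (SL w) = ∑' i, co i w * co q (lf i) := co_synth lf norm_lf_le w q
  have h2 : ∀ i, co i w * co q (lf i) = 0 := by
    intro i
    unfold lf
    rw [co_sg_ne (h i), mul_zero]
  rw [h1, tsum_congr h2, tsum_zero]

noncomputable def rvec : L (J × J) := SL wv

theorem co_rvec_off {q : J × J} (h : q.1 ≠ q.2) : co q rvec = 0 := by
  apply co_SL_ne
  rintro n rfl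
  exact h rfl

theorem co_rvec_leaf (n : ℕ) : co (J.leaf n, J.leaf n) rvec ≠ 0 := by
  unfold rvec
  rw [co_SL_leaf, co_wv]
  have : (0 : ℝ) < (1 / 2) ^ n := by positivity
  exact_mod_cast this.ne'

theorem val_leaf (n : ℕ) : val (J.leaf n) = sg (J.leaf n, J.leaf n) := by
  unfold val
  rw [raw_leaf, norm_sg, max_self, inv_one, Complex.ofReal_one, one_smul]

/-- images of the tensors -/
noncomputable def VS (U : Set J) : Submodule ℂ (L (J × J)) := (TS U).map (Sy : L (J × J) →ₗ[ℂ] L (J × J))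

theorem mem_VS {U : Set J} {g : L (J × J)} : g ∈ VS U ↔ ∃ T ∈ TS U, Sy T = g := Iff.rfl

theorem supp_sg {ι : Type} {U : Set ι} {j : ι} (hj : j ∈ U) : Supp U (sg j) := by
  intro k hk
  apply co_sg_ne
  rintro rfl
  exact hk hj

theorem outer_sg {ι : Type} (j k : ι) : outer (sg j) (sg k) = sg (j, k) := by
  apply co_ext
  intro q
  rw [co_outer]
  by_cases h : q = (j, k)
  · rw [h, co_sg_self, co_sg_self, co_sg_self, mul_one]
  · rw [co_sg_ne h]
    by_cases h1 : q.1 = j
    · have h2 : q.2 ≠ k := fun h2 => h (Prod.ext h1 h2)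
      rw [co_sg_ne h2, mul_zero]
    · rw [co_sg_ne h1, zero_mul]

theorem Sy_sg (q : J × J) : Sy (sg q) = bf q := synth_sg bf norm_bf_le q

theorem closed_leaves : Closed (Set.range J.leaf) := by
  rintro j ⟨n, rfl⟩ k hk
  exact absurd hk id

theorem base_case : rvec ∉ VS (Set.range J.leaf) := by
  classical
  intro hmem
  obtain ⟨T, hT, hTr⟩ := mem_VS.mp hmem
  have hsup := supp_TS hT
  have hSyT : Sy T = T := by
    apply co_ext
    intro q
    have h1 : co q (Sy T) = ∑' i, co i T * co q (bf i) := co_synth bf norm_bf_le T q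
    have h2 : ∀ i, co i T * co q (bf i) = co i T * co q (sg i) := by
      intro i
      by_cases hi : i ∈ Set.range J.leaf ×ˢ Set.range J.leaf
      · by_cases hii : i.1 = i.2
        · obtain ⟨⟨n, hn⟩, _⟩ := hi
          have h3 : i = (J.leaf n, J.leaf n) := Prod.ext hn.symm (hii ▸ hn.symm)
          rw [h3, bf_diag, val_leaf]
        · rw [bf_off hii]
      · rw [hsup i hi, zero_mul, zero_mul]
    rw [h1, tsum_congr h2, tsum_eq_single q]
    · rw [co_sg_self, mul_one]
    · intro i hi
      rw [co_sg_ne (Ne.symm hi), mul_zero]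
  rw [hSyT] at hTr
  subst hTr
  obtain ⟨s, x, y, ⟨hx, hy, hT'⟩, hix, hiy⟩ := exists_reduced hT
  choose d hd using exists_dual s y hiy
  have hinj : Function.Injective J.leaf := fun _ _ h => J.leaf.inj h
  obtain ⟨l, ⟨n, hn⟩, hl⟩ := (Set.infinite_range_of_injective hinj).exists_notMem_finset
    (s.biUnion fun a => (d a).support)
  have h1 : ∀ a ∈ s, co l (x a) = 0 := by
    intro a ha
    rw [row_formula hT' ha (hd a), map_sum]
    apply Finset.sum_eq_zero
    intro k hk
    rw [map_smul, co_row]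
    have hlk : l ≠ k := by
      rintro rfl
      apply hl
      rw [Finset.mem_biUnion]
      exact ⟨a, ha, hk⟩
    have h5 : co (l, k) rvec = 0 := co_rvec_off hlk
    rw [h5, smul_zero]
  apply co_rvec_leaf n
  rw [hT', map_sum]
  apply Finset.sum_eq_zero
  intro a ha
  rw [co_outer]
  change co (J.leaf n) (x a) * _ = 0
  rw [hn, h1 a ha, zero_mul]

theorem exists_maximal : ∃ S : Set J, Set.range J.leaf ⊆ S ∧ Closed S ∧ rvec ∉ VS S ∧
    ∀ S' : Set J, S ⊆ S' → Closed S' → rvec ∉ VS S' → S' ⊆ S := by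
  obtain ⟨S, hS0, hS⟩ := zorn_subset_nonempty
    {S : Set J | Set.range J.leaf ⊆ S ∧ Closed S ∧ rvec ∉ VS S} (by
      intro c hc hchain hne
      refine ⟨⋃₀ c, ⟨?_, ?_, ?_⟩, fun s hs => Set.subset_sUnion_of_mem hs⟩
      · obtain ⟨s, hs⟩ := hne
        exact (hc hs).1.trans (Set.subset_sUnion_of_mem hs)
      · rintro j ⟨s, hs, hj⟩ k hk
        exact ⟨s, hs, (hc hs).2.1 j hj k hk⟩
      · intro hmem
        obtain ⟨T, hT, hTr⟩ := mem_VS.mp hmem
        obtain ⟨s, hs, hTs⟩ := exists_mem_chain (fun s hs => (hc hs).2.1) hchain hne hT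
          (fun q hq => by rw [hTr]; exact co_rvec_off hq)
        exact (hc hs).2.2 (mem_VS.mpr ⟨T, hTs, hTr⟩))
    (Set.range J.leaf) ⟨subset_rfl, closed_leaves, base_case⟩
  refine ⟨S, hS.prop.1, hS.prop.2.1, hS.prop.2.2, ?_⟩
  intro S' hSS' hcl hr
  exact hS.le_of_ge ⟨hS0.trans hSS', hcl, hr⟩ hSS'

theorem exists_good : ∃ S : Set J, Set.range J.leaf ⊆ S ∧ Closed S ∧ rvec ∉ VS S ∧
    ∀ g : L (J × J), Supp (S ×ˢ S) g → ∃ v ∈ VS S, ∃ t : ℂ, g = v + t • rvec := by
  classical
  obtain ⟨S, hS0, hS, hr, hmax⟩ := exists_maximal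
  refine ⟨S, hS0, hS, hr, ?_⟩
  intro g hg
  obtain ⟨j, hj, t, ht, hval⟩ := exists_index (hS0 ⟨0, rfl⟩) g (fun q hq => by
    by_contra h
    exact hq (hg q h))
  have hgv : g = t⁻¹ • val j := by rw [hval, smul_smul, inv_mul_cancel₀ ht, one_smul]
  suffices h : ∃ v ∈ VS S, ∃ t : ℂ, val j = v + t • rvec by
    obtain ⟨v, hv, t', h'⟩ := h
    refine ⟨t⁻¹ • v, Submodule.smul_mem _ _ hv, t⁻¹ * t', ?_⟩
    rw [hgv, h', smul_add, smul_smul]
  by_cases hjS : j ∈ S
  · refine ⟨val j, mem_VS.mpr ⟨sg (j, j), ?_, ?_⟩, 0, by rw [zero_smul, add_zero]⟩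
    · rw [← outer_sg]
      exact outer_mem_TS (supp_sg hjS) (supp_sg hjS)
    · rw [Sy_sg, bf_diag]
  · -- enlarge by `j`
    have hcl' : Closed (insert j S) := by
      intro i hi k hk
      rcases Set.mem_insert_iff.mp hi with rfl | hi
      · exact Set.mem_insert_of_mem _ (hj k hk)
      · exact Set.mem_insert_of_mem _ (hS i hi k hk)
    have hr' : rvec ∈ VS (insert j S) := by
      by_contra hno
      exact hjS (hmax _ (Set.subset_insert _ _) hcl' hno (Set.mem_insert _ _))
    obtain ⟨T, hT, hTr⟩ := mem_VS.mp hr'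
    have hsup := supp_TS hT
    -- the support of the values of the enlarged set
    have hsupval : ∀ l ∈ insert j S, Supp (S ×ˢ S) (val l) := by
      intro l hl
      rcases Set.mem_insert_iff.mp hl with rfl | hl
      · rw [hval]
        exact hg.smul t
      · exact supp_val hS hl
    have hoff : ∀ q : J × J, q.1 ≠ q.2 → q ∉ S ×ˢ S → co q T = 0 := by
      intro q hq hqS
      have h1 := co_Sy_off T hq
      rw [hTr, co_rvec_off hq] at h1
      have h2 : co q (Vl (dg T)) = ∑' l, co l (dg T) * co q (val l) := co_synth val norm_val_le (dg T) q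
      have h3 : ∀ l, co l (dg T) * co q (val l) = 0 := by
        intro l
        by_cases hl : l ∈ insert j S
        · rw [hsupval l hl q hqS, mul_zero]
        · have h4 : co l (dg T) = 0 := hsup (l, l) (fun h => hl h.1)
          rw [h4, zero_mul]
      rw [h2, tsum_congr h3, tsum_zero, add_zero] at h1
      exact h1.symm
    -- decomposition of `T`
    obtain ⟨s, x, y, ⟨hx, hy, hT'⟩⟩ := exists_pres hT
    have hx' : ∀ a, Supp S (x a - co j (x a) • sg j) := by
      intro a k hk
      rw [map_sub, map_smul, smul_eq_mul]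
      by_cases hkj : k = j
      · rw [hkj, co_sg_self, mul_one, sub_self]
      · rw [co_sg_ne hkj, mul_zero, sub_zero]
        exact hx a k (fun h => (Set.mem_insert_iff.mp h).elim hkj hk)
    have hy' : ∀ a, Supp S (y a - co j (y a) • sg j) := by
      intro a k hk
      rw [map_sub, map_smul, smul_eq_mul]
      by_cases hkj : k = j
      · rw [hkj, co_sg_self, mul_one, sub_self]
      · rw [co_sg_ne hkj, mul_zero, sub_zero]
        exact hy a k (fun h => (Set.mem_insert_iff.mp h).elim hkj hk)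
    obtain ⟨T', hT'def⟩ : ∃ T', T' = ∑ a ∈ s, outer (x a - co j (x a) • sg j) (y a - co j (y a) • sg j) :=
      ⟨_, rfl⟩
    have hT'mem : T' ∈ TS S := by
      rw [hT'def]
      exact Submodule.sum_mem _ (fun a _ => outer_mem_TS (hx' a) (hy' a))
    have hTT : T = T' + co (j, j) T • sg (j, j) := by
      apply co_ext
      intro q
      rw [map_add, map_smul, smul_eq_mul]
      by_cases hq : q = (j, j)
      · rw [hq, co_sg_self, mul_one]
        have h5 : co (j, j) T' = 0 := supp_TS hT'mem (j, j) (fun h => hjS h.1)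
        rw [h5, zero_add]
      · rw [co_sg_ne hq, mul_zero, add_zero]
        by_cases hqS : q ∈ S ×ˢ S
        · rw [hT', hT'def, map_sum, map_sum]
          apply Finset.sum_congr rfl
          intro a _
          have h6 : q.1 ≠ j := fun h => hjS (h ▸ hqS.1)
          have h7 : q.2 ≠ j := fun h => hjS (h ▸ hqS.2)
          rw [co_outer, co_outer, map_sub, map_sub, map_smul, map_smul, co_sg_ne h6, co_sg_ne h7]
          simp
        · rw [supp_TS hT'mem q hqS]
          by_cases hqq : q.1 = q.2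
          · by_cases hqj : q.1 = j
            · exact absurd (Prod.ext hqj (hqq ▸ hqj)) hq
            · apply hsup
              intro h
              have h8 : q.1 ∈ S := (Set.mem_insert_iff.mp h.1).resolve_left hqj
              exact hqS ⟨h8, hqq ▸ h8⟩
          · exact hoff q hqq hqS
    have hr2 : rvec = Sy T' + co (j, j) T • val j := by
      rw [← hTr]
      conv_lhs => rw [hTT]
      rw [map_add, map_smul, Sy_sg, bf_diag]
    have hne : co (j, j) T ≠ 0 := by
      intro h0
      apply hr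
      rw [hr2, h0, zero_smul, add_zero]
      exact mem_VS.mpr ⟨T', hT'mem, rfl⟩
    refine ⟨- ((co (j, j) T)⁻¹ • Sy T'), ?_, (co (j, j) T)⁻¹, ?_⟩
    · exact Submodule.neg_mem _ (Submodule.smul_mem _ _ (mem_VS.mpr ⟨T', hT'mem, rfl⟩))
    · conv_rhs => rw [hr2]
      rw [smul_add, smul_smul, inv_mul_cancel₀ hne, one_smul, neg_add_cancel_left]

/-- The linear span `A^2` of all products. -/
def squareSpan (A : Type) [NonUnitalNormedRing A] [NormedSpace ℂ A] : Submodule ℂ A :=
  Submodule.span ℂ {x : A | ∃ a b : A, x = a * b}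

/-- Property (S). -/
def PropertyS (A : Type) [NonUnitalNormedRing A] [NormedSpace ℂ A] : Prop :=
  ∃ C : ℝ, ∀ x ∈ squareSpan A, ∃ (n : ℕ) (a b : Fin n → A),
    x = ∑ i, a i * b i ∧ ∑ i, ‖a i‖ * ‖b i‖ ≤ C * ‖x‖

/-- The Jacobson radical of a not necessarily unital algebra, computed through the unitization. -/
def radical (A : Type) [NonUnitalNormedRing A] [NormedSpace ℂ A] [IsScalarTower ℂ A A]
    [SMulCommClass ℂ A A] : Submodule ℂ A where
  carrier := {a : A | (Unitization.inr a : Unitization ℂ A) ∈ Ring.jacobson (Unitization ℂ A)}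
  add_mem' := by
    intro a b ha hb
    change (Unitization.inr (a + b) : Unitization ℂ A) ∈ Ring.jacobson (Unitization ℂ A)
    rw [Unitization.inr_add]
    exact add_mem ha hb
  zero_mem' := by
    change (Unitization.inr (0 : A) : Unitization ℂ A) ∈ Ring.jacobson (Unitization ℂ A)
    rw [Unitization.inr_zero]
    exact zero_mem _
  smul_mem' := by
    intro c a ha
    change (Unitization.inr (c • a) : Unitization ℂ A) ∈ Ring.jacobson (Unitization ℂ A)
    have h : (Unitization.inr (c • a) : Unitization ℂ A) = Unitization.inl c * Unitization.inr a := by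
      ext <;> simp
    rw [h]
    exact Ideal.mul_mem_left _ _ ha

section rep
variable {A : Type} [NonUnitalNormedRing A] [NormedSpace ℂ A]

def Rep (x : A) (c : ℝ) : Prop :=
  ∃ (n : ℕ) (a b : Fin n → A), x = ∑ i, a i * b i ∧ ∑ i, ‖a i‖ * ‖b i‖ ≤ c

theorem Rep.mono {x : A} {c d : ℝ} (h : Rep x c) (hcd : c ≤ d) : Rep x d := by
  obtain ⟨n, a, b, h1, h2⟩ := h
  exact ⟨n, a, b, h1, h2.trans hcd⟩

theorem Rep.zero : Rep (0 : A) 0 := ⟨0, 0, 0, by simp, by simp⟩

theorem Rep.mul (a b : A) : Rep (a * b) (‖a‖ * ‖b‖) :=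
  ⟨1, fun _ => a, fun _ => b, by simp, by simp⟩

theorem Rep.add {x y : A} {c d : ℝ} (hx : Rep x c) (hy : Rep y d) : Rep (x + y) (c + d) := by
  obtain ⟨n, a, b, h1, h2⟩ := hx
  obtain ⟨m, a', b', h1', h2'⟩ := hy
  refine ⟨n + m, Fin.append a a', Fin.append b b', ?_, ?_⟩
  · rw [Fin.sum_univ_add]
    simp only [Fin.append_left, Fin.append_right]
    rw [h1, h1']
  · rw [Fin.sum_univ_add]
    simp only [Fin.append_left, Fin.append_right]
    exact add_le_add h2 h2'

theorem Rep.sum {ι : Type} (s : Finset ι) (x : ι → A) (c : ι → ℝ) (h : ∀ i ∈ s, Rep (x i) (c i)) :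
    Rep (∑ i ∈ s, x i) (∑ i ∈ s, c i) := by
  classical
  induction s using Finset.induction_on with
  | empty => simpa using Rep.zero
  | insert i s hi ih =>
    rw [Finset.sum_insert hi, Finset.sum_insert hi]
    exact (h i (Finset.mem_insert_self i s)).add (ih (fun j hj => h j (Finset.mem_insert_of_mem hj)))

theorem mem_squareSpan_mul (a b : A) : a * b ∈ squareSpan A := Submodule.subset_span ⟨a, b, rfl⟩

theorem exists_rep [IsScalarTower ℂ A A] {x : A} (hx : x ∈ squareSpan A) :
    ∃ (n : ℕ) (a b : Fin n → A), x = ∑ i, a i * b i := by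
  have : ∃ c, Rep x c := by
    induction hx using Submodule.span_induction with
    | mem y hy =>
      obtain ⟨a, b, rfl⟩ := hy
      exact ⟨_, Rep.mul a b⟩
    | zero => exact ⟨0, Rep.zero⟩
    | add y z _ _ hy hz =>
      obtain ⟨c, hc⟩ := hy
      obtain ⟨d, hd⟩ := hz
      exact ⟨c + d, hc.add hd⟩
    | smul r y _ hy =>
      obtain ⟨c, n, a, b, h1, h2⟩ := hy
      refine ⟨_, n, fun i => r • a i, b, ?_, le_refl _⟩
      rw [h1, Finset.smul_sum]
      exact Finset.sum_congr rfl (fun i _ => (smul_mul_assoc r (a i) (b i)).symm)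
  obtain ⟨c, n, a, b, h1, _⟩ := this
  exact ⟨n, a, b, h1⟩

theorem propertyS_iff : PropertyS A ↔ ∃ C : ℝ, ∀ x ∈ squareSpan A, Rep x (C * ‖x‖) := Iff.rfl

end rep

section cov
variable {A D B : Type} [NonUnitalNormedRing A] [NormedSpace ℂ A] [IsScalarTower ℂ A A] [SMulCommClass ℂ A A]
  [NonUnitalNormedRing D] [NormedSpace ℂ D] [IsScalarTower ℂ D D] [SMulCommClass ℂ D D]
  [NormedRing B] [NormedAlgebra ℂ B]

structure IsCov (π : D →ₙₐ[ℂ] B) (f : A →ₙₐ[ℂ] C(I, B)) (p : A →ₙₐ[ℂ] D) : Prop where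
  norm_eq : ∀ a, ‖a‖ = max ‖f a‖ ‖p a‖
  zero_eq : ∀ a, f a 0 = π (p a)
  surj : ∀ (g : C(I, B)) (d : D), g 0 = π d → ∃ a, f a = g ∧ p a = d

variable {π : D →ₙₐ[ℂ] B} {f : A →ₙₐ[ℂ] C(I, B)} {p : A →ₙₐ[ℂ] D}

theorem IsCov.ext (h : IsCov π f p) {a b : A} (h1 : f a = f b) (h2 : p a = p b) : a = b := by
  have : ‖a - b‖ = 0 := by
    rw [h.norm_eq, map_sub, map_sub, h1, h2]
    simp
  exact sub_eq_zero.mp (norm_eq_zero.mp this)

theorem IsCov.f_eq_zero (h : IsCov π f p)
    (hB : ∀ T : B, T ≠ 0 → ∃ S : B, ¬ ∃ z : B, z * (1 - S * T) = 1)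
    {a : A} (ha : a ∈ radical A) : f a = 0 := by
  by_contra hne
  -- a point t0 ≠ 0 with f a t0 ≠ 0
  have hex : ∃ t0 : I, t0 ≠ 0 ∧ f a t0 ≠ 0 := by
    by_contra hno
    push Not at hno
    apply hne
    have hdense : Dense ({(0 : I)}ᶜ : Set I) := dense_compl_singleton 0
    have hh := Continuous.ext_on hdense (f a).continuous (0 : C(I, B)).continuous
      (fun t ht => by simpa using hno t ht)
    exact ContinuousMap.ext (fun t => congrFun hh t)
  obtain ⟨t0, ht0, hft0⟩ := hex
  have ht0' : (t0 : ℝ) ≠ 0 := fun hc => ht0 (Subtype.ext hc)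
  have ht0'' : ((t0 : ℝ) : ℂ) ≠ 0 := by exact_mod_cast ht0'
  obtain ⟨S, hS⟩ := hB _ hft0
  let y0 : C(I, B) := ⟨fun t => (((t : ℝ) / (t0 : ℝ) : ℝ) : ℂ) • S, by fun_prop⟩
  obtain ⟨y, hy1, hy2⟩ := h.surj y0 0 (by simp [y0])
  have hyt : f y t0 = S := by
    rw [hy1]
    simp [y0, div_self ht0'']
  -- membership in the radical
  have hmem : (Unitization.inr a : Unitization ℂ A) ∈ Ideal.jacobson (⊥ : Ideal (Unitization ℂ A)) := by
    rw [Ideal.jacobson_bot]
    exact ha
  rw [Ideal.mem_jacobson_iff] at hmem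
  obtain ⟨z, hz⟩ := hmem (-(Unitization.inr y))
  rw [Ideal.mem_bot] at hz
  let ev : A →ₙₐ[ℂ] B :=
    { toFun := fun b => f b t0
      map_smul' := by intro c b; simp
      map_zero' := by simp
      map_add' := by intro b c; simp
      map_mul' := by intro b c; simp }
  let F : Unitization ℂ A →ₐ[ℂ] B := Unitization.lift ev
  have hF : ∀ b : A, F (Unitization.inr b) = f b t0 := by
    intro b
    simp [F, ev]
  have h2 := congrArg F hz
  rw [map_sub, map_add, map_mul, map_mul, map_neg, map_one, map_zero, hF, hF, hyt] at h2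
  apply hS
  refine ⟨F z, ?_⟩
  have h4 : F z * (1 - S * f a t0) = (F z * -S * f a t0 + F z - 1) + 1 := by noncomm_ring
  rw [h4, h2, zero_add]

theorem IsCov.mem_radical (h : IsCov π f p) {a : A} (hf : f a = 0) (hp : ∀ d, d * p a = 0) :
    a ∈ radical A := by
  have hba : ∀ b : A, b * a = 0 := by
    intro b
    apply h.ext
    · rw [map_mul, hf, map_zero, mul_zero]
    · rw [map_mul, hp, map_zero]
  change (Unitization.inr a : Unitization ℂ A) ∈ Ring.jacobson (Unitization ℂ A)
  rw [← Ideal.jacobson_bot, Ideal.mem_jacobson_iff]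
  intro y
  refine ⟨1 - Unitization.inr (y.fst • a), ?_⟩
  rw [Ideal.mem_bot]
  have hy : y * (Unitization.inr a : Unitization ℂ A) = Unitization.inr (y.fst • a) := by
    ext
    · simp
    · simp [hba]
  have hy2 : (Unitization.inr (y.fst • a) : Unitization ℂ A) * Unitization.inr (y.fst • a) = 0 := by
    rw [← Unitization.inr_mul, mul_smul_comm, hba, smul_zero, Unitization.inr_zero]
  rw [mul_assoc, hy, sub_mul, one_mul, hy2]
  abel

theorem continuous_halfPower {V : Type} [NormedAddCommGroup V] [NormedSpace ℂ V] :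
    Continuous (fun v : V => (((Real.sqrt ‖v‖)⁻¹ : ℝ) : ℂ) • v) := by
  rw [continuous_iff_continuousAt]
  intro v
  by_cases hv : v = 0
  · subst hv
    rw [ContinuousAt, norm_zero, Real.sqrt_zero, inv_zero, Complex.ofReal_zero, zero_smul]
    rw [tendsto_zero_iff_norm_tendsto_zero]
    have h1 : Filter.Tendsto (fun v : V => Real.sqrt ‖v‖) (nhds 0) (nhds 0) := by
      have : Continuous (fun v : V => Real.sqrt ‖v‖) := by fun_prop
      have h := this.tendsto 0
      simpa using h
    refine h1.congr ?_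
    intro w
    rw [norm_smul, Complex.norm_real, norm_inv, Real.norm_of_nonneg (Real.sqrt_nonneg _)]
    by_cases hw : ‖w‖ = 0
    · simp [hw]
    · have hpos : 0 < Real.sqrt ‖w‖ := Real.sqrt_pos.mpr (lt_of_le_of_ne (norm_nonneg _) (Ne.symm hw))
      have h2 : ‖w‖ = Real.sqrt ‖w‖ * Real.sqrt ‖w‖ := (Real.mul_self_sqrt (norm_nonneg _)).symm
      field_simp
      rw [sq]
      exact h2.symm
  · have hne : Real.sqrt ‖v‖ ≠ 0 := by
      rw [Real.sqrt_ne_zero (norm_nonneg _)]
      exact norm_ne_zero_iff.mpr hv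
    have h0 : ContinuousAt (fun v : V => Real.sqrt ‖v‖) v :=
      (Real.continuous_sqrt.comp continuous_norm).continuousAt
    have h1 : ContinuousAt (fun v : V => (Real.sqrt ‖v‖)⁻¹) v := h0.inv₀ hne
    have h2 : ContinuousAt (fun v : V => (((Real.sqrt ‖v‖)⁻¹ : ℝ) : ℂ)) v :=
      (Complex.continuous_ofReal.continuousAt).comp h1
    exact h2.smul continuousAt_id

theorem norm_halfPower {V : Type} [NormedAddCommGroup V] [NormedSpace ℂ V] (v : V) :
    ‖(((Real.sqrt ‖v‖)⁻¹ : ℝ) : ℂ) • v‖ = Real.sqrt ‖v‖ := by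
  rw [norm_smul, Complex.norm_real, norm_inv, Real.norm_of_nonneg (Real.sqrt_nonneg _)]
  by_cases hw : ‖v‖ = 0
  · simp [hw]
  · have hpos : 0 < Real.sqrt ‖v‖ := Real.sqrt_pos.mpr (lt_of_le_of_ne (norm_nonneg _) (Ne.symm hw))
    have h2 : ‖v‖ = Real.sqrt ‖v‖ * Real.sqrt ‖v‖ := (Real.mul_self_sqrt (norm_nonneg _)).symm
    field_simp
    rw [sq]
    exact h2

theorem IsCov.rep_of_ker (h : IsCov π f p) (hone : ‖(1 : B)‖ ≤ 1) {k : A} (hk : p k = 0) :
    Rep k ‖k‖ := by
  have hk0 : f k 0 = 0 := by rw [h.zero_eq, hk, map_zero]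
  let g1 : C(I, B) := ⟨fun t => ((Real.sqrt ‖f k t‖ : ℝ) : ℂ) • (1 : B), by fun_prop⟩
  let g2 : C(I, B) := ⟨fun t => (((Real.sqrt ‖f k t‖)⁻¹ : ℝ) : ℂ) • f k t,
    (continuous_halfPower (V := B)).comp (f k).continuous⟩
  obtain ⟨a1, ha1, ha1'⟩ := h.surj g1 0 (by simp [g1, hk0])
  obtain ⟨a2, ha2, ha2'⟩ := h.surj g2 0 (by simp [g2, hk0])
  have hkk : k = a1 * a2 := by
    apply h.ext
    · rw [map_mul, ha1, ha2]
      ext t
      simp only [g1, g2, ContinuousMap.mul_apply, ContinuousMap.coe_mk]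
      rw [smul_mul_assoc, one_mul, smul_smul]
      by_cases hz : f k t = 0
      · simp [hz]
      · have hne : Real.sqrt ‖f k t‖ ≠ 0 := by
          rw [Real.sqrt_ne_zero (norm_nonneg _)]
          exact norm_ne_zero_iff.mpr hz
        rw [← Complex.ofReal_mul, mul_inv_cancel₀ hne, Complex.ofReal_one, one_smul]
    · rw [map_mul, ha1', ha2', hk, mul_zero]
  have hfk : ‖f k‖ = ‖k‖ := by
    rw [h.norm_eq k, hk, norm_zero, max_eq_left (norm_nonneg _)]
  have hn1 : ‖a1‖ ≤ Real.sqrt ‖k‖ := by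
    rw [h.norm_eq, ha1', norm_zero, max_eq_left (norm_nonneg _), ha1,
      ContinuousMap.norm_le _ (Real.sqrt_nonneg _)]
    intro t
    have h1 : ‖g1 t‖ = Real.sqrt ‖f k t‖ * ‖(1 : B)‖ := by
      simp only [g1, ContinuousMap.coe_mk, norm_smul, Complex.norm_real]
      rw [Real.norm_of_nonneg (Real.sqrt_nonneg _)]
    rw [h1]
    calc Real.sqrt ‖f k t‖ * ‖(1 : B)‖ ≤ Real.sqrt ‖f k t‖ * 1 :=
          mul_le_mul_of_nonneg_left hone (Real.sqrt_nonneg _)
      _ = Real.sqrt ‖f k t‖ := mul_one _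
      _ ≤ Real.sqrt ‖k‖ := Real.sqrt_le_sqrt (by rw [← hfk]; exact (f k).norm_coe_le_norm t)
  have hn2 : ‖a2‖ ≤ Real.sqrt ‖k‖ := by
    rw [h.norm_eq, ha2', norm_zero, max_eq_left (norm_nonneg _), ha2,
      ContinuousMap.norm_le _ (Real.sqrt_nonneg _)]
    intro t
    have h1 : ‖g2 t‖ = Real.sqrt ‖f k t‖ := norm_halfPower (f k t)
    rw [h1]
    exact Real.sqrt_le_sqrt (by rw [← hfk]; exact (f k).norm_coe_le_norm t)
  have hrep := Rep.mul a1 a2
  rw [← hkk] at hrep
  apply hrep.mono
  calc ‖a1‖ * ‖a2‖ ≤ Real.sqrt ‖k‖ * Real.sqrt ‖k‖ :=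
        mul_le_mul hn1 hn2 (norm_nonneg _) (Real.sqrt_nonneg _)
    _ = ‖k‖ := Real.mul_self_sqrt (norm_nonneg _)

theorem map_squareSpan (p : A →ₙₐ[ℂ] D) {x : A} (hx : x ∈ squareSpan A) : p x ∈ squareSpan D := by
  induction hx using Submodule.span_induction with
  | mem y hy =>
    obtain ⟨a, b, rfl⟩ := hy
    rw [map_mul]
    exact mem_squareSpan_mul _ _
  | zero => rw [map_zero]; exact zero_mem _
  | add y z _ _ hy hz => rw [map_add]; exact add_mem hy hz
  | smul r y _ hy => rw [map_smul]; exact Submodule.smul_mem _ _ hy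

/-- Lifting by constant functions. -/
theorem IsCov.exists_lift (h : IsCov π f p) {M : ℝ} (hM : 1 ≤ M) (hπ : ∀ d, ‖π d‖ ≤ M * ‖d‖) (d : D) :
    ∃ a, f a = ContinuousMap.const I (π d) ∧ p a = d ∧ ‖a‖ ≤ M * ‖d‖ := by
  obtain ⟨a, ha, ha'⟩ := h.surj (ContinuousMap.const I (π d)) d rfl
  refine ⟨a, ha, ha', ?_⟩
  rw [h.norm_eq, ha, ha']
  apply max_le
  · rw [ContinuousMap.norm_le _ (mul_nonneg (zero_le_one.trans hM) (norm_nonneg _))]
    intro t
    exact hπ d
  · calc ‖d‖ = 1 * ‖d‖ := (one_mul _).symm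
      _ ≤ M * ‖d‖ := mul_le_mul_of_nonneg_right hM (norm_nonneg _)

theorem IsCov.propertyS (h : IsCov π f p) (hone : ‖(1 : B)‖ ≤ 1) {M : ℝ} (hM : 1 ≤ M)
    (hπ : ∀ d, ‖π d‖ ≤ M * ‖d‖) (hD : PropertyS D) : PropertyS A := by
  obtain ⟨C, hC⟩ := hD
  have hM0 : 0 ≤ M := zero_le_one.trans hM
  refine ⟨M * M * |C| + (1 + M * M * |C|), ?_⟩
  intro x hx
  obtain ⟨n, d, e, h1, h2⟩ := hC (p x) (map_squareSpan p hx)
  have hpx : ‖p x‖ ≤ ‖x‖ := by rw [h.norm_eq x]; exact le_max_right _ _
  have h2' : ∑ i, ‖d i‖ * ‖e i‖ ≤ |C| * ‖x‖ :=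
    h2.trans ((mul_le_mul_of_nonneg_right (le_abs_self C) (norm_nonneg _)).trans
      (mul_le_mul_of_nonneg_left hpx (abs_nonneg C)))
  choose l hl1 hl2 hl3 using h.exists_lift hM hπ
  have hsum : ∑ i, ‖l (d i)‖ * ‖l (e i)‖ ≤ M * M * |C| * ‖x‖ := by
    calc ∑ i, ‖l (d i)‖ * ‖l (e i)‖ ≤ ∑ i, M * M * (‖d i‖ * ‖e i‖) := by
          apply Finset.sum_le_sum
          intro i _
          calc ‖l (d i)‖ * ‖l (e i)‖ ≤ (M * ‖d i‖) * (M * ‖e i‖) :=
                mul_le_mul (hl3 _) (hl3 _) (norm_nonneg _) (mul_nonneg hM0 (norm_nonneg _))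
            _ = M * M * (‖d i‖ * ‖e i‖) := by ring
      _ = M * M * ∑ i, ‖d i‖ * ‖e i‖ := by rw [Finset.mul_sum]
      _ ≤ M * M * (|C| * ‖x‖) := mul_le_mul_of_nonneg_left h2' (mul_nonneg hM0 hM0)
      _ = M * M * |C| * ‖x‖ := by ring
  have hy : Rep (∑ i, l (d i) * l (e i)) (M * M * |C| * ‖x‖) :=
    ⟨n, fun i => l (d i), fun i => l (e i), rfl, hsum⟩
  have hk : p (x - ∑ i, l (d i) * l (e i)) = 0 := by
    rw [map_sub, map_sum]
    simp only [map_mul, hl2]
    rw [← h1, sub_self]
  have hky := h.rep_of_ker hone hk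
  have hkn : ‖x - ∑ i, l (d i) * l (e i)‖ ≤ (1 + M * M * |C|) * ‖x‖ := by
    calc ‖x - ∑ i, l (d i) * l (e i)‖ ≤ ‖x‖ + ‖∑ i, l (d i) * l (e i)‖ := norm_sub_le _ _
      _ ≤ ‖x‖ + ∑ i, ‖l (d i)‖ * ‖l (e i)‖ := by
          gcongr
          exact (norm_sum_le _ _).trans (Finset.sum_le_sum (fun i _ => norm_mul_le _ _))
      _ ≤ ‖x‖ + M * M * |C| * ‖x‖ := by gcongr
      _ = (1 + M * M * |C|) * ‖x‖ := by ring
  have hfin := hy.add (hky.mono hkn)
  rw [add_sub_cancel] at hfin
  apply hfin.mono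
  apply le_of_eq
  ring

theorem IsCov.propertyS_down (h : IsCov π f p) {M : ℝ} (hM : 1 ≤ M)
    (hπ : ∀ d, ‖π d‖ ≤ M * ‖d‖) (hA : PropertyS A) : PropertyS D := by
  obtain ⟨C, hC⟩ := hA
  have hM0 : 0 ≤ M := zero_le_one.trans hM
  choose l hl1 hl2 hl3 using h.exists_lift hM hπ
  have hlin : ∀ d ∈ squareSpan D, l d ∈ squareSpan A := by
    intro d hd
    induction hd using Submodule.span_induction with
    | mem y hy =>
      obtain ⟨a, b, rfl⟩ := hy
      have : l (a * b) = l a * l b := by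
        apply h.ext
        · rw [map_mul, hl1, hl1, hl1]
          ext t
          simp
        · rw [map_mul, hl2, hl2, hl2]
      rw [this]
      exact mem_squareSpan_mul _ _
    | zero =>
      have : l (0 : D) = 0 := by
        apply h.ext
        · rw [hl1]; ext t; simp
        · rw [hl2]; simp
      rw [this]; exact zero_mem _
    | add y z _ _ hy hz =>
      have : l (y + z) = l y + l z := by
        apply h.ext
        · rw [map_add, hl1, hl1, hl1]
          ext t
          simp
        · rw [map_add, hl2, hl2, hl2]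
      rw [this]; exact add_mem hy hz
    | smul r y _ hy =>
      have : l (r • y) = r • l y := by
        apply h.ext
        · rw [map_smul, hl1, hl1]
          ext t
          simp
        · rw [map_smul, hl2, hl2]
      rw [this]; exact Submodule.smul_mem _ _ hy
  refine ⟨|C| * M, ?_⟩
  intro d hd
  obtain ⟨n, a, b, h1, h2⟩ := hC (l d) (hlin d hd)
  refine ⟨n, fun i => p (a i), fun i => p (b i), ?_, ?_⟩
  · have := congrArg p h1
    rw [hl2, map_sum] at this
    rw [this]
    exact Finset.sum_congr rfl (fun i _ => map_mul p _ _)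
  · have hp : ∀ x : A, ‖p x‖ ≤ ‖x‖ := fun x => by rw [h.norm_eq x]; exact le_max_right _ _
    calc ∑ i, ‖p (a i)‖ * ‖p (b i)‖ ≤ ∑ i, ‖a i‖ * ‖b i‖ :=
          Finset.sum_le_sum (fun i _ => mul_le_mul (hp _) (hp _) (norm_nonneg _) (norm_nonneg _))
      _ ≤ C * ‖l d‖ := h2
      _ ≤ |C| * (M * ‖d‖) := mul_le_mul (le_abs_self C) (hl3 d) (norm_nonneg _) (abs_nonneg C)
      _ = |C| * M * ‖d‖ := by ring

end cov
theorem prim {X : Type} [NormedAddCommGroup X] [NormedSpace ℂ X] (T : X →L[ℂ] X) (hT : T ≠ 0) :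
    ∃ S : X →L[ℂ] X, ¬ ∃ z : X →L[ℂ] X, z * (1 - S * T) = 1 := by
  obtain ⟨v, hv⟩ : ∃ v, T v ≠ 0 := by
    by_contra hno
    push Not at hno
    exact hT (ContinuousLinearMap.ext hno)
  obtain ⟨g, hg⟩ := SeparatingDual.exists_eq_one (R := ℂ) hv
  refine ⟨g.smulRight v, ?_⟩
  rintro ⟨z, hz⟩
  have h3 := congrArg (fun U : X →L[ℂ] X => U v) hz
  simp [hg] at h3
  apply hv
  rw [← h3, map_zero]

theorem exists_equalizer {E P : Type} [NonUnitalNormedRing E] [NormedSpace ℂ E] [IsScalarTower ℂ E E]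
    [SMulCommClass ℂ E E] [CompleteSpace E] [NormedRing P] [NormedAlgebra ℂ P]
    (φ ψ : E →ₙₐ[ℂ] P) (hφ : Continuous φ) (hψ : Continuous ψ) :
    ∃ (A : Type) (_ : NonUnitalNormedRing A) (_ : NormedSpace ℂ A) (_ : IsScalarTower ℂ A A)
      (_ : SMulCommClass ℂ A A) (_ : CompleteSpace A) (j : A →ₙₐ[ℂ] E),
      (∀ a, ‖a‖ = ‖j a‖) ∧ (∀ a, φ (j a) = ψ (j a)) ∧ (∀ e, φ e = ψ e → ∃ a, j a = e) := by
  let S : NonUnitalSubalgebra ℂ E := NonUnitalAlgHom.equalizer φ ψ
  have hcl : IsClosed (S : Set E) := by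
    have : (S : Set E) = {x | φ x = ψ x} := by
      ext x; exact NonUnitalAlgHom.mem_equalizer φ ψ x
    rw [this]
    exact isClosed_eq hφ hψ
  let _ : NonUnitalNormedRing S := NonUnitalSubalgebra.nonUnitalNormedRing S
  let _ : NormedSpace ℂ S :=
    { norm_smul_le := fun c x => by
        change ‖(c • x : E)‖ ≤ ‖c‖ * ‖(x : E)‖
        exact norm_smul_le c (x : E) }
  have : CompleteSpace S := hcl.completeSpace_coe
  refine ⟨S, inferInstance, inferInstance, inferInstance, inferInstance, inferInstance,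
    NonUnitalSubalgebraClass.subtype S, fun a => rfl, fun a => ?_, fun e he => ?_⟩
  · exact a.2
  · exact ⟨⟨e, he⟩, rfl⟩

theorem exists_cov {D B : Type} [NonUnitalNormedRing D] [NormedSpace ℂ D] [IsScalarTower ℂ D D]
    [SMulCommClass ℂ D D] [CompleteSpace D] [NormedRing B] [NormedAlgebra ℂ B] [CompleteSpace B]
    (π : D →ₙₐ[ℂ] B) (hπ : Continuous π) :
    ∃ (A : Type) (_ : NonUnitalNormedRing A) (_ : NormedSpace ℂ A) (_ : IsScalarTower ℂ A A)
      (_ : SMulCommClass ℂ A A) (_ : CompleteSpace A) (f : A →ₙₐ[ℂ] C(I, B)) (p : A →ₙₐ[ℂ] D),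
      IsCov π f p := by
  let φ : (C(I, B) × D) →ₙₐ[ℂ] B :=
    { toFun := fun x => x.1 0
      map_smul' := by intro c b; simp
      map_zero' := by simp
      map_add' := by intro b c; simp
      map_mul' := by intro b c; simp }
  let ψ : (C(I, B) × D) →ₙₐ[ℂ] B :=
    { toFun := fun x => π x.2
      map_smul' := by intro c b; simp
      map_zero' := by simp
      map_add' := by intro b c; simp
      map_mul' := by intro b c; simp }
  have hφ : Continuous φ := by
    change Continuous (fun x : C(I, B) × D => x.1 0)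
    fun_prop
  have hψ : Continuous ψ := by
    change Continuous (fun x : C(I, B) × D => π x.2)
    exact hπ.comp continuous_snd
  obtain ⟨A, i1, i2, i3, i4, i5, j, hj1, hj2, hj3⟩ := exists_equalizer φ ψ hφ hψ
  refine ⟨A, i1, i2, i3, i4, i5,
    { toFun := fun a => (j a).1
      map_smul' := by intro c b; simp
      map_zero' := by simp
      map_add' := by intro b c; simp
      map_mul' := by intro b c; simp },
    { toFun := fun a => (j a).2
      map_smul' := by intro c b; simp
      map_zero' := by simp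
      map_add' := by intro b c; simp
      map_mul' := by intro b c; simp }, ⟨fun a => ?_, fun a => ?_, fun g d hgd => ?_⟩⟩
  · rw [hj1 a]
    rfl
  · exact hj2 a
  · obtain ⟨a, ha⟩ := hj3 (g, d) hgd
    refine ⟨a, ?_, ?_⟩
    · change (j a).1 = g
      rw [ha]
    · change (j a).2 = d
      rw [ha]

/-! ### A surjective bilinear map which is not open -/

section bil
variable {ι : Type}

/-- vectors supported in `S` -/
def SS (S : Set ι) : Submodule ℂ (L ι) where
  carrier := {x | Supp S x}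
  add_mem' := fun hx hy => Supp.add hx hy
  zero_mem' := Supp.zero
  smul_mem' := fun c _ hx => Supp.smul c hx

theorem mem_SS {S : Set ι} {x : L ι} : x ∈ SS S ↔ Supp S x := Iff.rfl

theorem isClosed_SS (S : Set ι) : IsClosed (SS S : Set (L ι)) := by
  have : (SS S : Set (L ι)) = ⋂ j : ι, ⋂ _ : j ∉ S, {x | coL j x = 0} := by
    ext x
    simp only [SetLike.mem_coe, mem_SS, Set.mem_iInter, Set.mem_ofPred_eq]
    rfl
  rw [this]
  refine isClosed_iInter fun j => isClosed_iInter fun _ => ?_
  exact isClosed_eq (coL j).continuous continuous_const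

/-- truncation -/
noncomputable def trunc (F : Finset ι) (a : L ι) : L ι := ∑ k ∈ F, co k a • sg k

theorem tendsto_trunc (a : L ι) : Filter.Tendsto (fun F => trunc F a) Filter.atTop (nhds a) := by
  classical
  have h := lp.hasSum_single (E := fun _ : ι => ℂ) (p := 1) (by simp) a
  refine Filter.Tendsto.congr ?_ h
  intro F
  unfold trunc
  apply Finset.sum_congr rfl
  intro k _
  apply co_ext
  intro j
  rw [map_smul, co_sg, smul_eq_mul]
  change (Pi.single k (a k) : ι → ℂ) j = co k a * _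
  rw [Pi.single_apply]
  by_cases h : j = k
  · rw [if_pos h, if_pos h, mul_one]; rfl
  · rw [if_neg h, if_neg h, mul_zero]

end bil

theorem exists_quot (G : Type) [NormedAddCommGroup G] [NormedSpace ℂ G] [CompleteSpace G] (r : G) :
    ∃ (F : Type) (_ : NormedAddCommGroup F) (_ : NormedSpace ℂ F) (_ : CompleteSpace F) (q : G →L[ℂ] F),
      Function.Surjective q ∧ (∀ g, q g = 0 ↔ ∃ c : ℂ, c • r = g) ∧ ∀ g, ‖q g‖ ≤ ‖g‖ := by
  let R : Submodule ℂ G := Submodule.span ℂ {r}
  have : IsClosed (R : Set G) := Submodule.closed_of_finiteDimensional _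
  refine ⟨G ⧸ R, inferInstance, inferInstance, inferInstance, R.mkQL, Submodule.Quotient.mk_surjective R,
    fun g => ?_, fun g => Submodule.Quotient.norm_mk_le R g⟩
  rw [← Submodule.mem_span_singleton]
  exact Submodule.Quotient.mk_eq_zero R

/-- A continuous bilinear map between Banach spaces whose values span the target algebraically, but not openly. -/
theorem exists_bilinear : ∃ (E F : Type) (_ : NormedAddCommGroup E) (_ : NormedSpace ℂ E) (_ : CompleteSpace E)
    (_ : NormedAddCommGroup F) (_ : NormedSpace ℂ F) (_ : CompleteSpace F) (β : E →L[ℂ] E →L[ℂ] F),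
    (∀ a b, ‖β a b‖ ≤ ‖a‖ * ‖b‖) ∧
    (∀ g : F, g ∈ Submodule.span ℂ {g | ∃ a b, g = β a b}) ∧
    ¬ ∃ C : ℝ, ∀ g : F, ∃ (n : ℕ) (a b : Fin n → E), g = ∑ i, β (a i) (b i) ∧
      ∑ i, ‖a i‖ * ‖b i‖ ≤ C * ‖g‖ := by
  obtain ⟨S, hS0, hS, hr, hall⟩ := exists_good
  have hrS : Supp (S ×ˢ S) rvec := by
    intro q hq
    apply co_SL_ne
    rintro n rfl
    exact hq ⟨hS0 ⟨n, rfl⟩, hS0 ⟨n, rfl⟩⟩
  let E := SS S
  let G := SS (S ×ˢ S)
  have hE : CompleteSpace E := (isClosed_SS S).completeSpace_coe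
  have hG : CompleteSpace G := (isClosed_SS (S ×ˢ S)).completeSpace_coe
  let r0 : G := ⟨rvec, hrS⟩
  obtain ⟨Q, _, _, _, q, hqs, hq0, hqle⟩ := exists_quot G r0
  let b0 : E →ₗ[ℂ] E →ₗ[ℂ] Q := LinearMap.mk₂ ℂ
    (fun x y => q ⟨Sy (outer x.1 y.1), supp_Sy hS (supp_outer x.2 y.2)⟩)
    (fun x y z => by
      rw [← map_add]
      congr 1
      apply Subtype.ext
      change Sy (outer (x.1 + y.1) z.1) = Sy (outer x.1 z.1) + Sy (outer y.1 z.1)
      rw [map_add, LinearMap.add_apply, map_add])
    (fun c x z => by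
      rw [← map_smul]
      congr 1
      apply Subtype.ext
      change Sy (outer (c • x.1) z.1) = c • Sy (outer x.1 z.1)
      rw [map_smul, LinearMap.smul_apply, map_smul])
    (fun x y z => by
      rw [← map_add]
      congr 1
      apply Subtype.ext
      change Sy (outer x.1 (y.1 + z.1)) = Sy (outer x.1 y.1) + Sy (outer x.1 z.1)
      rw [map_add, map_add])
    (fun c x z => by
      rw [← map_smul]
      congr 1
      apply Subtype.ext
      change Sy (outer x.1 (c • z.1)) = c • Sy (outer x.1 z.1)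
      rw [map_smul, map_smul])
  have hb0 : ∀ x y, b0 x y = q ⟨Sy (outer x.1 y.1), supp_Sy hS (supp_outer x.2 y.2)⟩ := fun _ _ => rfl
  have hbn : ∀ x y, ‖b0 x y‖ ≤ ‖x‖ * ‖y‖ := by
    intro x y
    rw [hb0]
    refine (hqle _).trans ?_
    change ‖Sy (outer x.1 y.1)‖ ≤ ‖x.1‖ * ‖y.1‖
    refine (norm_synth_le bf norm_bf_le _).trans ?_
    rw [norm_outer]
  let β : E →L[ℂ] E →L[ℂ] Q := LinearMap.mkContinuous₂ b0 1 (fun x y => by
    rw [one_mul]; exact hbn x y)
  have hβ : ∀ x y, β x y = q ⟨Sy (outer x.1 y.1), supp_Sy hS (supp_outer x.2 y.2)⟩ := fun _ _ => rfl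
  refine ⟨E, Q, inferInstance, inferInstance, hE, inferInstance, inferInstance, inferInstance, β, hbn, ?_, ?_⟩
  · intro g
    obtain ⟨g1, rfl⟩ : ∃ g1 : G, q g1 = g := hqs g
    obtain ⟨v, hv, t, hvt⟩ := hall g1.1 g1.2
    obtain ⟨T, hT, hTv⟩ := mem_VS.mp hv
    have hTS : ∀ T ∈ TS S, ∀ h : Supp (S ×ˢ S) (Sy T), q ⟨Sy T, h⟩ ∈
        Submodule.span ℂ {g | ∃ a b, g = β a b} := by
      intro T hT
      unfold TS at hT
      induction hT using Submodule.span_induction with
      | mem y hy =>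
        intro h
        obtain ⟨a, b, ha, hb, rfl⟩ := hy
        exact Submodule.subset_span ⟨⟨a, ha⟩, ⟨b, hb⟩, rfl⟩
      | zero =>
        intro h
        have h0 : (⟨Sy 0, h⟩ : G) = 0 := Subtype.ext (map_zero Sy)
        rw [h0, map_zero]
        exact zero_mem _
      | add y z hy' hz' hy hz =>
        intro h
        have h1 : Supp (S ×ˢ S) (Sy y) := supp_Sy hS (supp_TS hy')
        have h2 : Supp (S ×ˢ S) (Sy z) := supp_Sy hS (supp_TS hz')
        have h0 : (⟨Sy (y + z), h⟩ : G) = ⟨Sy y, h1⟩ + ⟨Sy z, h2⟩ := Subtype.ext (map_add Sy y z)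
        rw [h0, map_add]
        exact add_mem (hy h1) (hz h2)
      | smul c y hy' hy =>
        intro h
        have h1 : Supp (S ×ˢ S) (Sy y) := supp_Sy hS (supp_TS hy')
        have h0 : (⟨Sy (c • y), h⟩ : G) = c • ⟨Sy y, h1⟩ := Subtype.ext (map_smul Sy c y)
        rw [h0, map_smul]
        exact Submodule.smul_mem _ _ (hy h1)
    have hsT : Supp (S ×ˢ S) (Sy T) := supp_Sy hS (supp_TS hT)
    have h3 : g1 = ⟨Sy T, hsT⟩ + t • r0 := by
      apply Subtype.ext
      change g1.1 = Sy T + t • rvec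
      rw [hvt, hTv]
    have h4 : q (t • r0) = 0 := (hq0 _).mpr ⟨t, rfl⟩
    rw [h3, map_add, h4, add_zero]
    exact hTS T hT hsT
  · rintro ⟨C, hC⟩
    -- the images of the truncations
    have hsupSL : ∀ w : L ℕ, Supp (S ×ˢ S) (SL w) := by
      intro w q hq
      apply co_SL_ne
      rintro n rfl
      exact hq ⟨hS0 ⟨n, rfl⟩, hS0 ⟨n, rfl⟩⟩
    have hVS : ∀ n, SL (trunc (Finset.range n) wv) ∈ VS S := by
      intro n
      unfold trunc
      rw [map_sum]
      apply Submodule.sum_mem
      intro k _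
      rw [map_smul]
      apply Submodule.smul_mem
      refine mem_VS.mpr ⟨sg (J.leaf k, J.leaf k), ?_, ?_⟩
      · rw [← outer_sg]
        exact outer_mem_TS (supp_sg (hS0 ⟨k, rfl⟩)) (supp_sg (hS0 ⟨k, rfl⟩))
      · rw [Sy_sg, bf_diag, val_leaf]
        exact (synth_sg lf norm_lf_le k).symm
    have hlow : ∀ n, 1 ≤ n → 1 ≤ |C| * ‖wv - trunc (Finset.range n) wv‖ := by
      intro n hn1
      obtain ⟨m, a, b, h1, h2⟩ := hC (q ⟨SL (trunc (Finset.range n) wv), hsupSL _⟩)
      have h3 : q ((⟨SL (trunc (Finset.range n) wv), hsupSL _⟩ : G) -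
          ∑ i, ⟨Sy (outer (a i).1 (b i).1), supp_Sy hS (supp_outer (a i).2 (b i).2)⟩) = 0 := by
        rw [map_sub, map_sum, sub_eq_zero]
        exact h1
      obtain ⟨c, hc⟩ := (hq0 _).mp h3
      have hc' : c • rvec = SL (trunc (Finset.range n) wv) - ∑ i, Sy (outer (a i).1 (b i).1) := by
        have h4 := congrArg (fun z : G => z.1) hc
        have h5 : ((∑ i, (⟨Sy (outer (a i).1 (b i).1), supp_Sy hS (supp_outer (a i).2 (b i).2)⟩ : G) : G) :
            L (J × J)) = ∑ i, Sy (outer (a i).1 (b i).1) := by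
          rw [Submodule.coe_sum]
        rw [← h5]
        exact h4
      have hVS2 : ∑ i, Sy (outer (a i).1 (b i).1) ∈ VS S :=
        Submodule.sum_mem _ (fun i _ => mem_VS.mpr ⟨_, outer_mem_TS (a i).2 (b i).2, rfl⟩)
      have hc0 : c = 0 := by
        by_contra hne
        apply hr
        have h6 : rvec = c⁻¹ • (SL (trunc (Finset.range n) wv) - ∑ i, Sy (outer (a i).1 (b i).1)) := by
          rw [← hc', smul_smul, inv_mul_cancel₀ hne, one_smul]
        rw [h6]
        exact Submodule.smul_mem _ _ (Submodule.sub_mem _ (hVS n) hVS2)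
      rw [hc0, zero_smul] at hc'
      have h8 : SL (trunc (Finset.range n) wv) = ∑ i, Sy (outer (a i).1 (b i).1) := sub_eq_zero.mp hc'.symm
      have h9 : ‖SL (trunc (Finset.range n) wv)‖ ≤ |C| * ‖wv - trunc (Finset.range n) wv‖ := by
        calc ‖SL (trunc (Finset.range n) wv)‖ ≤ ∑ i, ‖Sy (outer (a i).1 (b i).1)‖ := by
              rw [h8]; exact norm_sum_le _ _
          _ ≤ ∑ i, ‖a i‖ * ‖b i‖ := by
              apply Finset.sum_le_sum
              intro i _
              refine (norm_synth_le bf norm_bf_le _).trans ?_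
              rw [norm_outer]
              exact le_rfl
          _ ≤ C * ‖q ⟨SL (trunc (Finset.range n) wv), hsupSL _⟩‖ := h2
          _ ≤ |C| * ‖wv - trunc (Finset.range n) wv‖ := by
              apply mul_le_mul (le_abs_self C) _ (norm_nonneg _) (abs_nonneg C)
              have h10 : q ⟨SL (trunc (Finset.range n) wv), hsupSL _⟩ =
                  q (⟨SL (trunc (Finset.range n) wv), hsupSL _⟩ - r0) := by
                rw [map_sub, (hq0 r0).mpr ⟨1, one_smul _ _⟩, sub_zero]
              rw [h10]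
              refine (hqle _).trans ?_
              change ‖SL (trunc (Finset.range n) wv) - SL wv‖ ≤ _
              rw [← map_sub, norm_sub_rev wv]
              exact norm_synth_le lf norm_lf_le _
      have h10 : (1 : ℝ) ≤ ‖SL (trunc (Finset.range n) wv)‖ := by
        have h11 := norm_co_le (SL (trunc (Finset.range n) wv)) (J.leaf 0, J.leaf 0)
        rw [co_SL_leaf] at h11
        have h12 : co 0 (trunc (Finset.range n) wv) = 1 := by
          unfold trunc
          rw [map_sum, Finset.sum_eq_single 0]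
          · rw [map_smul, co_sg_self, co_wv]
            simp
          · intro k _ hk
            rw [map_smul, co_sg_ne (Ne.symm hk), smul_zero]
          · intro h
            exact absurd (Finset.mem_range.mpr hn1) h
        rw [h12, norm_one] at h11
        exact h11
      exact h10.trans h9
    have hlim : Filter.Tendsto (fun n => |C| * ‖wv - trunc (Finset.range n) wv‖) Filter.atTop (nhds 0) := by
      have h1 := (tendsto_trunc wv).comp Filter.tendsto_finset_range
      have h2 := ((tendsto_const_nhds (x := wv)).sub h1).norm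
      have h3 := h2.const_mul |C|
      simpa using h3
    have h4 := ge_of_tendsto hlim (Filter.eventually_atTop.mpr ⟨1, hlow⟩)
    linarith

/-- The triangular algebra. -/
theorem exists_tri (E F : Type) [NormedAddCommGroup E] [NormedSpace ℂ E] [CompleteSpace E]
    [NormedAddCommGroup F] [NormedSpace ℂ F] [CompleteSpace F] (β : E →L[ℂ] E →L[ℂ] F)
    (hβ : ∀ a b, ‖β a b‖ ≤ ‖a‖ * ‖b‖) :
    ∃ (D : Type) (_ : NonUnitalNormedRing D) (_ : NormedSpace ℂ D) (_ : IsScalarTower ℂ D D)
      (_ : SMulCommClass ℂ D D) (_ : CompleteSpace D) (e : D ≃ₗ[ℂ] E × ℂ × E × F),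
      (∀ d, ‖d‖ = ‖e d‖) ∧ ∀ d d', e (d * d') = ((e d').2.1 • (e d).1, (e d).2.1 * (e d').2.1,
        (e d).2.1 • (e d').2.2.1, β (e d).1 (e d').2.2.1) := by
  let X := E × ℂ × E × F
  let inst : NonUnitalNormedRing X :=
    { (inferInstance : NormedAddCommGroup (E × ℂ × E × F)) with
      mul := fun x y => (y.2.1 • x.1, x.2.1 * y.2.1, x.2.1 • y.2.2.1, β x.1 y.2.2.1)
      left_distrib := fun x y z => by
        change ((y.2.1 + z.2.1) • x.1, x.2.1 * (y.2.1 + z.2.1), x.2.1 • (y.2.2.1 + z.2.2.1),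
          β x.1 (y.2.2.1 + z.2.2.1)) = (y.2.1 • x.1 + z.2.1 • x.1, x.2.1 * y.2.1 + x.2.1 * z.2.1,
          x.2.1 • y.2.2.1 + x.2.1 • z.2.2.1, β x.1 y.2.2.1 + β x.1 z.2.2.1)
        rw [add_smul, mul_add, smul_add, map_add]
      right_distrib := fun x y z => by
        change (z.2.1 • (x.1 + y.1), (x.2.1 + y.2.1) * z.2.1, (x.2.1 + y.2.1) • z.2.2.1,
          β (x.1 + y.1) z.2.2.1) = (z.2.1 • x.1 + z.2.1 • y.1, x.2.1 * z.2.1 + y.2.1 * z.2.1,
          x.2.1 • z.2.2.1 + y.2.1 • z.2.2.1, β x.1 z.2.2.1 + β y.1 z.2.2.1)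
        rw [smul_add, add_mul, add_smul, map_add, add_apply]
      zero_mul := fun x => by
        change (x.2.1 • (0 : E), (0 : ℂ) * x.2.1, (0 : ℂ) • x.2.2.1, β 0 x.2.2.1) = (0, 0, 0, 0)
        rw [smul_zero, zero_mul, zero_smul, map_zero, zero_apply]
      mul_zero := fun x => by
        change ((0 : ℂ) • x.1, x.2.1 * (0 : ℂ), x.2.1 • (0 : E), β x.1 0) = (0, 0, 0, 0)
        rw [smul_zero, mul_zero, zero_smul, map_zero]
      mul_assoc := fun x y z => by
        change (z.2.1 • y.2.1 • x.1, (x.2.1 * y.2.1) * z.2.1, (x.2.1 * y.2.1) • z.2.2.1,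
          β (y.2.1 • x.1) z.2.2.1) = ((y.2.1 * z.2.1) • x.1, x.2.1 * (y.2.1 * z.2.1),
          x.2.1 • y.2.1 • z.2.2.1, β x.1 (y.2.1 • z.2.2.1))
        rw [smul_smul, smul_smul, mul_assoc, map_smul, map_smul, smul_apply,
          mul_comm z.2.1]
      norm_mul_le := fun x y => by
        change ‖(y.2.1 • x.1, x.2.1 * y.2.1, x.2.1 • y.2.2.1, β x.1 y.2.2.1)‖ ≤ ‖x‖ * ‖y‖
        have hx1 : ‖x.1‖ ≤ ‖x‖ := norm_fst_le x
        have hx2 : ‖x.2.1‖ ≤ ‖x‖ := (norm_fst_le x.2).trans (norm_snd_le x)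
        have hy2 : ‖y.2.1‖ ≤ ‖y‖ := (norm_fst_le y.2).trans (norm_snd_le y)
        have hy3 : ‖y.2.2.1‖ ≤ ‖y‖ := (norm_fst_le y.2.2).trans ((norm_snd_le y.2).trans (norm_snd_le y))
        rw [Prod.norm_def, Prod.norm_def, Prod.norm_def]
        refine max_le ?_ (max_le ?_ (max_le ?_ ?_))
        · rw [norm_smul, mul_comm]
          exact mul_le_mul hx1 hy2 (norm_nonneg _) (norm_nonneg _)
        · exact (norm_mul_le _ _).trans (mul_le_mul hx2 hy2 (norm_nonneg _) (norm_nonneg _))
        · rw [norm_smul]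
          exact mul_le_mul hx2 hy3 (norm_nonneg _) (norm_nonneg _)
        · exact (hβ _ _).trans (mul_le_mul hx1 hy3 (norm_nonneg _) (norm_nonneg _)) }
  let ns : @NormedSpace ℂ X _ inst.toNonUnitalSeminormedRing.toSeminormedAddCommGroup :=
    (inferInstance : NormedSpace ℂ (E × ℂ × E × F))
  refine ⟨X, inst, ns, ⟨fun c x y => ?_⟩, ⟨fun c x y => ?_⟩,
    (inferInstance : CompleteSpace (E × ℂ × E × F)),
    LinearEquiv.refl ℂ (E × ℂ × E × F), fun d => rfl, fun d d' => rfl⟩
  · change (y.2.1 • c • x.1, (c * x.2.1) * y.2.1, (c * x.2.1) • y.2.2.1, β (c • x.1) y.2.2.1) =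
      (c • y.2.1 • x.1, c * (x.2.1 * y.2.1), c • x.2.1 • y.2.2.1, c • β x.1 y.2.2.1)
    rw [smul_comm, mul_assoc, mul_smul, map_smul, smul_apply]
  · change (c • y.2.1 • x.1, c * (x.2.1 * y.2.1), c • x.2.1 • y.2.2.1, c • β x.1 y.2.2.1) =
      ((c * y.2.1) • x.1, x.2.1 * (c * y.2.1), x.2.1 • c • y.2.2.1, β x.1 (c • y.2.2.1))
    rw [mul_smul, mul_left_comm, smul_comm x.2.1 c, map_smul]

/-- The left regular representation on `ℂ × D`. -/
theorem exists_repr (D : Type) [NonUnitalNormedRing D] [NormedSpace ℂ D] [IsScalarTower ℂ D D]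
    [SMulCommClass ℂ D D] :
    ∃ π : D →ₙₐ[ℂ] ((ℂ × D) →L[ℂ] (ℂ × D)), (∀ d, ‖π d‖ ≤ 2 * ‖d‖) ∧ ∀ d, π d = 0 → d = 0 := by
  let T0 : D → ((ℂ × D) →ₗ[ℂ] (ℂ × D)) := fun a =>
    { toFun := fun x => (0, x.1 • a + a * x.2)
      map_add' := fun x y => by
        ext1
        · simp
        · simp only [Prod.snd_add, Prod.fst_add, add_smul, mul_add]
          abel
      map_smul' := fun c x => by
        ext1
        · simp
        · simp only [Prod.smul_snd, Prod.smul_fst, RingHom.id_apply, smul_add, smul_eq_mul, mul_smul,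
            mul_smul_comm] }
  have hT0 : ∀ a x, T0 a x = (0, x.1 • a + a * x.2) := fun _ _ => rfl
  have hbd : ∀ a x, ‖T0 a x‖ ≤ 2 * ‖a‖ * ‖x‖ := by
    intro a x
    rw [hT0, Prod.norm_def]
    have hx1 : ‖x.1‖ ≤ ‖x‖ := norm_fst_le x
    have hx2 : ‖x.2‖ ≤ ‖x‖ := norm_snd_le x
    apply max_le
    · rw [norm_zero]; positivity
    · calc ‖x.1 • a + a * x.2‖ ≤ ‖x.1 • a‖ + ‖a * x.2‖ := norm_add_le _ _
        _ ≤ ‖x‖ * ‖a‖ + ‖a‖ * ‖x‖ := by
            rw [norm_smul]
            exact add_le_add (mul_le_mul_of_nonneg_right hx1 (norm_nonneg _))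
              ((norm_mul_le _ _).trans (mul_le_mul_of_nonneg_left hx2 (norm_nonneg _)))
        _ = 2 * ‖a‖ * ‖x‖ := by ring
  let T : D → ((ℂ × D) →L[ℂ] (ℂ × D)) := fun a => (T0 a).mkContinuous (2 * ‖a‖) (hbd a)
  have hT : ∀ a x, T a x = (0, x.1 • a + a * x.2) := fun _ _ => rfl
  let π : D →ₙₐ[ℂ] ((ℂ × D) →L[ℂ] (ℂ × D)) :=
    { toFun := T
      map_smul' := fun c a => by
        apply ContinuousLinearMap.ext
        intro x
        change T (c • a) x = c • T a x
        rw [hT, hT]
        ext1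
        · simp
        · simp only [Prod.smul_snd, smul_add, smul_mul_assoc, smul_comm c x.1 a]
      map_zero' := by
        apply ContinuousLinearMap.ext
        intro x
        change T 0 x = 0
        rw [hT]
        simp
      map_add' := fun a b => by
        apply ContinuousLinearMap.ext
        intro x
        change T (a + b) x = T a x + T b x
        rw [hT, hT, hT]
        ext1
        · simp
        · simp only [Prod.snd_add, smul_add, add_mul]
          abel
      map_mul' := fun a b => by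
        apply ContinuousLinearMap.ext
        intro x
        change T (a * b) x = T a (T b x)
        rw [hT, hT, hT]
        ext1
        · simp
        · simp only [zero_smul, zero_add, mul_add, mul_smul_comm, mul_assoc] }
  have hπ : ∀ a x, π a x = (0, x.1 • a + a * x.2) := fun _ _ => rfl
  refine ⟨π, fun a => ?_, fun a ha => ?_⟩
  · apply ContinuousLinearMap.opNorm_le_bound _ (by positivity)
    intro x
    exact hbd a x
  · have h1 : π a (1, 0) = 0 := by rw [ha]; rfl
    rw [hπ] at h1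
    simp only [one_smul, mul_zero, add_zero] at h1
    exact congrArg Prod.snd h1

theorem Rep.mem {A : Type} [NonUnitalNormedRing A] [NormedSpace ℂ A] {x : A} {c : ℝ} (h : Rep x c) :
    x ∈ squareSpan A := by
  obtain ⟨n, a, b, h1, _⟩ := h
  rw [h1]
  exact Submodule.sum_mem _ (fun i _ => mem_squareSpan_mul _ _)

/-- The covering construction applied to an algebra spanned by products. -/
theorem main {D B0 : Type}
    [NonUnitalNormedRing D] [NormedSpace ℂ D] [IsScalarTower ℂ D D] [SMulCommClass ℂ D D] [CompleteSpace D]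
    [NormedRing B0] [NormedAlgebra ℂ B0] [CompleteSpace B0]
    (hsq : squareSpan D = ⊤) (hnot : ¬ PropertyS D)
    (hone : ‖(1 : B0)‖ ≤ 1) (hprim : ∀ T : B0, T ≠ 0 → ∃ S : B0, ¬ ∃ z : B0, z * (1 - S * T) = 1)
    (π : D →ₙₐ[ℂ] B0) (hπ : ∀ d, ‖π d‖ ≤ 2 * ‖d‖) (hinj : ∀ d, π d = 0 → d = 0) :
    ∃ (A : Type) (_ : NonUnitalNormedRing A) (_ : NormedSpace ℂ A) (_ : IsScalarTower ℂ A A)
      (_ : SMulCommClass ℂ A A) (_ : CompleteSpace A),
      radical A = ⊥ ∧ squareSpan A = ⊤ ∧ ¬ PropertyS A := by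
  have hc : Continuous π := AddMonoidHomClass.continuous_of_bound π 2 hπ
  obtain ⟨A, _, _, _, _, _, f, p, hA⟩ := exists_cov π hc
  refine ⟨A, inferInstance, inferInstance, inferInstance, inferInstance, inferInstance, ?_, ?_, ?_⟩
  · rw [eq_bot_iff]
    intro a ha
    rw [Submodule.mem_bot]
    have h1 := hA.f_eq_zero hprim ha
    have h2 : π (p a) = 0 := by
      rw [← hA.zero_eq, h1]
      rfl
    apply hA.ext
    · rw [h1, map_zero]
    · rw [hinj _ h2, map_zero]
  · rw [eq_top_iff]
    intro a _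
    have h1 : p a ∈ squareSpan D := by rw [hsq]; trivial
    obtain ⟨n, d, e, hde⟩ := exists_rep h1
    choose l hl1 hl2 hl3 using hA.exists_lift one_le_two hπ
    have h2 : p (a - ∑ i, l (d i) * l (e i)) = 0 := by
      rw [map_sub, map_sum]
      simp only [map_mul, hl2]
      rw [← hde, sub_self]
    have h3 := (hA.rep_of_ker hone h2).mem
    have h4 : ∑ i, l (d i) * l (e i) ∈ squareSpan A :=
      Submodule.sum_mem _ (fun i _ => mem_squareSpan_mul _ _)
    have h5 := add_mem h3 h4
    rw [sub_add_cancel] at h5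
    exact h5
  · intro hS
    exact hnot (hA.propertyS_down one_le_two hπ hS)

/-- The triangular algebra of the bilinear map. -/
theorem exists_D : ∃ (D : Type) (_ : NonUnitalNormedRing D) (_ : NormedSpace ℂ D) (_ : IsScalarTower ℂ D D)
    (_ : SMulCommClass ℂ D D) (_ : CompleteSpace D), squareSpan D = ⊤ ∧ ¬ PropertyS D := by
  obtain ⟨E, F, _, _, _, _, _, _, β, hβ, hspan, hno⟩ := exists_bilinear
  obtain ⟨D, _, _, _, _, _, e, hn, hm⟩ := exists_tri E F β hβ
  have hg : ∀ g : F, e.symm (0, 0, 0, g) ∈ squareSpan D := by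
    intro g
    have h1 := hspan g
    induction h1 using Submodule.span_induction with
    | mem y hy =>
      obtain ⟨a, b, rfl⟩ := hy
      have h2 : e.symm (0, 0, 0, β a b) = e.symm (a, 0, 0, 0) * e.symm (0, 0, b, 0) := by
        apply e.injective
        rw [hm, e.apply_symm_apply, e.apply_symm_apply, e.apply_symm_apply]
        simp
      rw [h2]
      exact mem_squareSpan_mul _ _
    | zero =>
      have h2 : e.symm ((0 : E), (0 : ℂ), (0 : E), (0 : F)) = 0 := map_zero e.symm
      rw [h2]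
      exact zero_mem _
    | add y z _ _ hy hz =>
      have h2 : e.symm ((0 : E), (0 : ℂ), (0 : E), y + z) =
          e.symm (0, 0, 0, y) + e.symm (0, 0, 0, z) := by
        rw [← map_add]
        simp
      rw [h2]
      exact add_mem hy hz
    | smul c y _ hy =>
      have h2 : e.symm ((0 : E), (0 : ℂ), (0 : E), c • y) = c • e.symm (0, 0, 0, y) := by
        rw [← map_smul]
        simp
      rw [h2]
      exact Submodule.smul_mem _ _ hy
  refine ⟨D, inferInstance, inferInstance, inferInstance, inferInstance, inferInstance, ?_, ?_⟩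
  · rw [eq_top_iff]
    intro d _
    have h1 : d = e.symm ((e d).1, 0, 0, 0) * e.symm (0, 1, 0, 0) +
        e.symm (0, 1, 0, 0) * e.symm (0, (e d).2.1, (e d).2.2.1, 0) + e.symm (0, 0, 0, (e d).2.2.2) := by
      apply e.injective
      rw [map_add, map_add, hm, hm]
      simp only [e.apply_symm_apply]
      ext1
      · simp
      · ext1
        · simp
        · ext1
          · simp
          · simp
    rw [h1]
    exact add_mem (add_mem (mem_squareSpan_mul _ _) (mem_squareSpan_mul _ _)) (hg _)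
  · rintro ⟨C, hC⟩
    apply hno
    refine ⟨C, fun g => ?_⟩
    obtain ⟨n, a, b, h1, h2⟩ := hC _ (hg g)
    have h3 := congrArg (fun d => (e d).2.2.2) h1
    have h4 : g = ∑ i, β (e (a i)).1 (e (b i)).2.2.1 := by
      simp only [e.apply_symm_apply, map_sum, hm, Prod.snd_sum] at h3
      exact h3
    refine ⟨n, fun i => (e (a i)).1, fun i => (e (b i)).2.2.1, h4, ?_⟩
    have h5 : ‖e.symm ((0 : E), (0 : ℂ), (0 : E), g)‖ = ‖g‖ := by
      rw [hn, e.apply_symm_apply, Prod.norm_def, Prod.norm_def, Prod.norm_def]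
      simp
    rw [h5] at h2
    refine le_trans (Finset.sum_le_sum (fun i _ => ?_)) h2
    rw [hn (a i), hn (b i)]
    apply mul_le_mul (norm_fst_le _) _ (norm_nonneg _) (norm_nonneg _)
    exact (norm_fst_le (e (b i)).2.2).trans ((norm_snd_le (e (b i)).2).trans (norm_snd_le (e (b i))))

/-- There is a semisimple Banach algebra `A` (the Jacobson radical is zero) with `A^2 = A` which does not have
property (S). -/
theorem result :
    ∃ (A : Type) (_ : NonUnitalNormedRing A) (_ : NormedSpace ℂ A) (_ : IsScalarTower ℂ A A)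
      (_ : SMulCommClass ℂ A A) (_ : CompleteSpace A),
      radical A = ⊥ ∧ squareSpan A = ⊤ ∧ ¬ PropertyS A := by
  obtain ⟨D, _, _, _, _, _, hsq, hnot⟩ := exists_D
  obtain ⟨π, hπ, hinj⟩ := exists_repr D
  exact main (B0 := (ℂ × D) →L[ℂ] (ℂ × D)) hsq hnot ContinuousLinearMap.norm_id_le prim π hπ hinj

end Pool.Agent.Results.MP_0279ce_an.SemisimpleFull
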